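import Pool.Agent.KR5.Mom

/-!
# Second moments: Chebyshev and Markov for random subsets, and disjoint pairs
-/

namespace Pool.Agent.KR5

open Finset AK

section
variable {ι : Type*} [DecidableEq ι]

theorem second (P : Finset ι) (z : ι → ℝ) (j : ℕ) (hP : j + 4 ≤ P.card) :
    sv z j P (fun s => (s - j / P.card * ∑ x ∈ P, z x) ^ 2)
      ≤ j / P.card * ∑ x ∈ P, z x ^ 2 := by
  have hm := moments z j P hP
  obtain ⟨M, hM⟩ : ∃ M : ℝ, M = P.card := ⟨_, rfl⟩
  have hPr : (j : ℝ) + 4 ≤ M := by rw [hM]; exact_mod_cast hP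
  have hj : (0 : ℝ) ≤ j := Nat.cast_nonneg j
  rw [← hM] at hm ⊢
  obtain ⟨p1, h1⟩ : ∃ p1, p1 = ∑ x ∈ P, z x := ⟨_, rfl⟩
  obtain ⟨p2, h2⟩ : ∃ p2, p2 = ∑ x ∈ P, z x ^ 2 := ⟨_, rfl⟩
  rw [← h1, ← h2] at hm
  rw [← h1, ← h2]
  have hp2 : 0 ≤ p2 := by rw [h2]; exact sum_nonneg (fun x _ => sq_nonneg _)
  have e : (fun s : ℝ => (s - j / M * p1) ^ 2)
      = (fun s => s ^ 2 + ((-(2 * (j / M * p1))) * s + (j / M * p1) ^ 2)) := by
    funext s
    ring
  rw [e, sv_add z j P (fun s => s ^ 2) (fun s => (-(2 * (j / M * p1))) * s + (j / M * p1) ^ 2),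
    sv_add z j P (fun s => (-(2 * (j / M * p1))) * s) (fun _ => (j / M * p1) ^ 2),
    sv_mul z j P (fun s => s), sv_const z j P _ (by omega), hm.1, hm.2.1]
  unfold m1 m2
  have hM0 : 0 < M := by linarith
  have hq2 : 0 ≤ r2 (j : ℝ) M := by
    unfold r2
    rcases Nat.eq_zero_or_pos j with rfl | hj'
    · simp
    · have : (1 : ℝ) ≤ j := by exact_mod_cast hj'
      apply div_nonneg
      · exact mul_nonneg hj (by linarith)
      · exact mul_nonneg (by linarith) (by linarith)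
  have hq21 : r2 (j : ℝ) M ≤ (j / M) ^ 2 := by
    unfold r2
    rw [div_pow, div_le_div_iff₀ (mul_pos (by linarith) (by linarith)) (by positivity)]
    have h3 : (j : ℝ) * (j - 1) * M ^ 2 = (j * M) * ((j - 1) * M) := by ring
    have h4 : (j : ℝ) ^ 2 * (M * (M - 1)) = (j * M) * (j * (M - 1)) := by ring
    rw [h3, h4]
    apply mul_le_mul_of_nonneg_left _ (by positivity)
    linarith
  have e1 : r1 (j : ℝ) M = j / M := rfl
  rw [e1]
  have h5 : r2 (j : ℝ) M * p1 ^ 2 ≤ (j / M) ^ 2 * p1 ^ 2 :=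
    mul_le_mul_of_nonneg_right hq21 (sq_nonneg _)
  have h6 : 0 ≤ r2 (j : ℝ) M * p2 := mul_nonneg hq2 hp2
  nlinarith

theorem cheb_up (P : Finset ι) (z : ι → ℝ) (j : ℕ) (hP : j + 4 ≤ P.card) {L θ : ℝ} (hL : 0 < L)
    (hθ : j / P.card * ∑ x ∈ P, z x + L ≤ θ) :
    L ^ 2 * (((powersetCard j P).filter (fun V => θ ≤ ∑ x ∈ V, z x)).card : ℝ)
      ≤ (P.card.choose j : ℝ) * (j / P.card * ∑ x ∈ P, z x ^ 2) := by
  have h1 := second P z j hP
  have h2 := sv_eq z j P (fun s => (s - j / P.card * ∑ x ∈ P, z x) ^ 2) (by omega)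
  have h3 : ∑ V ∈ powersetCard j P, (∑ x ∈ V, z x - j / P.card * ∑ x ∈ P, z x) ^ 2
      ≤ (P.card.choose j : ℝ) * (j / P.card * ∑ x ∈ P, z x ^ 2) := by
    rw [← h2, mul_comm]
    exact mul_le_mul_of_nonneg_left h1 (Nat.cast_nonneg _)
  refine le_trans ?_ h3
  rw [card_filter]
  push_cast
  rw [mul_sum]
  apply sum_le_sum
  intro V _
  split_ifs with h
  · rw [mul_one]
    apply pow_le_pow_left₀ hL.le
    linarith
  · rw [mul_zero]
    exact sq_nonneg _

theorem cheb_dn (P : Finset ι) (z : ι → ℝ) (j : ℕ) (hP : j + 4 ≤ P.card) {L θ : ℝ} (hL : 0 < L)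
    (hθ : θ ≤ j / P.card * ∑ x ∈ P, z x - L) :
    L ^ 2 * (((powersetCard j P).filter (fun V => ∑ x ∈ V, z x ≤ θ)).card : ℝ)
      ≤ (P.card.choose j : ℝ) * (j / P.card * ∑ x ∈ P, z x ^ 2) := by
  have h := cheb_up P (fun x => -z x) j hP hL (θ := -θ) (by
    rw [sum_neg_distrib]
    linarith)
  have e1 : ∑ x ∈ P, (-z x) ^ 2 = ∑ x ∈ P, z x ^ 2 := by
    apply sum_congr rfl
    intro x _
    ring
  have e2 : (powersetCard j P).filter (fun V => -θ ≤ ∑ x ∈ V, -z x)
      = (powersetCard j P).filter (fun V => ∑ x ∈ V, z x ≤ θ) := by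
    apply filter_congr
    intro V _
    rw [sum_neg_distrib, neg_le_neg_iff]
  rw [e1, e2] at h
  exact h

theorem markov (P : Finset ι) (m : ι → ℝ) (j : ℕ) (hP : j + 4 ≤ P.card) (hm : ∀ x ∈ P, 0 ≤ m x)
    {θ : ℝ} :
    θ * (((powersetCard j P).filter (fun V => θ ≤ ∑ x ∈ V, m x)).card : ℝ)
      ≤ (P.card.choose j : ℝ) * (j / P.card * ∑ x ∈ P, m x) := by
  have h1 := (moments m j P hP).1
  have h2 := sv_eq m j P (fun s => s) (by omega)
  have h3 : ∑ V ∈ powersetCard j P, ∑ x ∈ V, m x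
      = (P.card.choose j : ℝ) * (j / P.card * ∑ x ∈ P, m x) := by
    rw [← h2, h1, mul_comm]
    rfl
  rw [← h3, card_filter]
  push_cast
  rw [mul_sum]
  apply sum_le_sum
  intro V hV
  rw [mem_powersetCard] at hV
  split_ifs with h
  · rw [mul_one]
    exact h
  · rw [mul_zero]
    exact sum_nonneg (fun x hx => hm x (hV.1 hx))

/-- disjoint pairs counted in two ways -/
theorem pair_swap (Q : Finset ι) (κ k : ℕ) (f : Finset ι → Finset ι → ℝ) :
    ∑ W ∈ powersetCard κ Q, ∑ S ∈ powersetCard k (Q \ W), f W S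
      = ∑ S ∈ powersetCard k Q, ∑ W ∈ powersetCard κ (Q \ S), f W S := by
  apply sum_comm'
  intro W S
  rw [mem_powersetCard, mem_powersetCard, mem_powersetCard, mem_powersetCard, subset_sdiff,
    subset_sdiff]
  constructor
  · rintro ⟨⟨hW, hc⟩, ⟨hS, hd⟩, hc'⟩
    exact ⟨⟨⟨hW, hd.symm⟩, hc⟩, hS, hc'⟩
  · rintro ⟨⟨⟨hW, hd⟩, hc⟩, hS, hc'⟩
    exact ⟨⟨hW, hc⟩, ⟨hS, hd.symm⟩, hc'⟩

theorem pair_count (Q : Finset ι) (κ k : ℕ) (A B : Finset ι → Prop) [DecidablePred A]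
    [DecidablePred B] {a b : ℝ}
    (ha : ∀ W ∈ powersetCard κ Q, A W → a ≤ (((powersetCard k (Q \ W)).filter B).card : ℝ))
    (hb : ∀ S ∈ powersetCard k Q, B S → (((powersetCard κ (Q \ S)).filter A).card : ℝ) ≤ b) :
    a * (((powersetCard κ Q).filter A).card : ℝ) ≤ b * (((powersetCard k Q).filter B).card : ℝ) := by
  have h1 : a * (((powersetCard κ Q).filter A).card : ℝ)
      ≤ ∑ W ∈ powersetCard κ Q, ∑ S ∈ powersetCard k (Q \ W),
        (if A W ∧ B S then (1 : ℝ) else 0) := by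
    rw [card_filter]
    push_cast
    rw [mul_sum]
    apply sum_le_sum
    intro W hW
    split_ifs with h
    · rw [mul_one]
      refine (ha W hW h).trans ?_
      rw [card_filter]
      push_cast
      apply sum_le_sum
      intro S _
      simp only [h, true_and]
      exact le_rfl
    · rw [mul_zero]
      apply sum_nonneg
      intro S _
      split_ifs <;> norm_num
  have h2 : ∑ S ∈ powersetCard k Q, ∑ W ∈ powersetCard κ (Q \ S),
        (if A W ∧ B S then (1 : ℝ) else 0)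
      ≤ b * (((powersetCard k Q).filter B).card : ℝ) := by
    rw [card_filter]
    push_cast
    rw [mul_sum]
    apply sum_le_sum
    intro S hS
    split_ifs with h
    · rw [mul_one]
      refine le_trans ?_ (hb S hS h)
      rw [card_filter]
      push_cast
      apply sum_le_sum
      intro W _
      simp only [h, and_true]
      exact le_rfl
    · rw [mul_zero]
      apply le_of_eq
      apply sum_eq_zero
      intro W _
      rw [if_neg (fun hh => h hh.2)]
  rw [pair_swap] at h1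
  exact h1.trans h2

end

end Pool.Agent.KR5
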