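import Pool.Agent.KR5.Low
import Pool.Agent.Helper80.AK.Sharp

/-!
# A Feige-type bound for random subsets, without a quadratic condition
-/

namespace Pool.Agent.KR5

open Finset AK

section
variable {ι : Type*} [DecidableEq ι]

/-- the lower bound -/
theorem feige_gen (P : Finset ι) (y : ι → ℝ) (j : ℕ) (hj : 1 ≤ j) (hM1 : 48 * j ≤ P.card)
    {ν τ : ℝ} (hν : 0 < ν) (hy : ∀ x ∈ P, y x ≤ ν) (hs : -τ ≤ ∑ x ∈ P, y x)
    (hτ : j * τ ≤ 11 / 24 * ν * P.card) :
    7 / 100 * (P.card.choose j : ℝ) ≤ (((powersetCard j P).filter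
      (fun V => -ν < ∑ x ∈ V, y x)).card : ℝ) := by
  obtain ⟨M, hM⟩ : ∃ M, M = P.card := ⟨_, rfl⟩
  rw [← hM] at hM1 hτ ⊢
  obtain ⟨r, hr⟩ : ∃ r, r = M / (3 * j) := ⟨_, rfl⟩
  have hr1 : 3 * j * r ≤ M := by rw [hr]; exact Nat.mul_div_le _ _
  have hr2 : M < 3 * j * (r + 1) := by rw [hr]; exact Nat.lt_mul_div_succ _ (by omega)
  have hrM : r ≤ M := by
    calc r = 1 * r := (one_mul r).symm
      _ ≤ 3 * j * r := Nat.mul_le_mul_right _ (by omega)
      _ ≤ M := hr1
  obtain ⟨Q, hQP, hQc, hQ⟩ := top_part P y r (by omega)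
  rw [← hM] at hQc
  have hj1 : (1 : ℝ) ≤ j := by exact_mod_cast hj
  have hMr : 48 * (j : ℝ) ≤ M := by exact_mod_cast hM1
  have hr1r : 3 * (j : ℝ) * r ≤ M := by exact_mod_cast hr1
  have hr2r : (M : ℝ) ≤ 3 * j * (r + 1) := by exact_mod_cast hr2.le
  have hr0 : (0 : ℝ) ≤ r := Nat.cast_nonneg r
  have hM0 : (0 : ℝ) < M := by linarith
  have hM0' : 0 < M := by exact_mod_cast hM0
  have hQr : (Q.card : ℝ) = M - r := by
    have : (Q.card : ℝ) + r = M := by exact_mod_cast hQc
    linarith
  have hQn : Q.card = M - r := by omega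
  have hrM3 : 3 * (r : ℝ) ≤ M := by nlinarith
  have hQpos : (0 : ℝ) < Q.card := by rw [hQr]; linarith
  have hQpos' : 0 < Q.card := by exact_mod_cast hQpos
  have hQne : Q.Nonempty := card_pos.1 hQpos'
  -- avoiding the smallest values
  have hav : 2 / 3 * (M.choose j : ℝ) ≤ (Q.card.choose j : ℝ) := by
    have h1 := choose_avoid M j hM0' r hrM
    rw [← hQn] at h1
    have h2 : (j : ℝ) * r / M ≤ 1 / 3 := by
      rw [div_le_div_iff₀ hM0 (by norm_num)]
      linarith
    have h3 : (M.choose j : ℝ) * (2 / 3) ≤ (M.choose j : ℝ) * (1 - (j : ℝ) * r / M) :=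
      mul_le_mul_of_nonneg_left (by linarith) (Nat.cast_nonneg _)
    linarith
  have hmono : (((powersetCard j Q).filter (fun V => -ν < ∑ x ∈ V, y x)).card : ℝ)
      ≤ (((powersetCard j P).filter (fun V => -ν < ∑ x ∈ V, y x)).card : ℝ) := by
    have : ((powersetCard j Q).filter (fun V => -ν < ∑ x ∈ V, y x)).card
        ≤ ((powersetCard j P).filter (fun V => -ν < ∑ x ∈ V, y x)).card := by
      apply card_le_card
      intro V hV
      rw [mem_filter, mem_powersetCard] at hV ⊢
      exact ⟨⟨hV.1.1.trans hQP, hV.1.2⟩, hV.2⟩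
    exact_mod_cast this
  suffices hmain : 21 / 200 * (Q.card.choose j : ℝ)
      ≤ (((powersetCard j Q).filter (fun V => -ν < ∑ x ∈ V, y x)).card : ℝ) by
    linarith
  -- the threshold
  obtain ⟨x0, hx0, hmin⟩ := exists_min_image Q y hQne
  set β := -y x0 with hβ
  have hβQ : ∀ x ∈ Q, -β ≤ y x := by
    intro x hx
    rw [hβ, neg_neg]
    exact hmin x hx
  have hβP : ∀ z ∈ P \ Q, y z ≤ -β := by
    intro z hz
    rw [hβ, neg_neg]
    exact hQ x0 hx0 z hz
  rcases le_or_gt β 0 with hβ0 | hβ0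
  · have h1 : (powersetCard j Q).filter (fun V => -ν < ∑ x ∈ V, y x) = powersetCard j Q := by
      apply filter_true_of_mem
      intro V hV
      rw [mem_powersetCard] at hV
      have : 0 ≤ ∑ x ∈ V, y x := sum_nonneg (fun x hx => by
        have := hβQ x (hV.1 hx)
        linarith)
      linarith
    rw [h1, card_powersetCard]
    have : (0 : ℝ) ≤ (Q.card.choose j : ℝ) := Nat.cast_nonneg _
    linarith
  · have hsum : (r : ℝ) * β - τ ≤ ∑ x ∈ Q, y x := by
      have h1 : ∑ x ∈ P \ Q, y x ≤ -(r * β) := by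
        calc ∑ x ∈ P \ Q, y x ≤ ∑ x ∈ P \ Q, (-β) := sum_le_sum hβP
          _ = -(r * β) := by
            rw [sum_const, card_sdiff_of_subset hQP, nsmul_eq_mul, ← hM, ← hQc,
              Nat.add_sub_cancel_left]
            ring
      have h2 := sum_sdiff (f := y) hQP
      linarith
    have hjr : 5 / 16 * (M : ℝ) ≤ j * r := by nlinarith
    have hQM : 2 / 3 * (M : ℝ) ≤ Q.card := by rw [hQr]; linarith
    have hQM2 : (Q.card : ℝ) ≤ M := by rw [hQr]; linarith
    have hp1 : 5 / 16 * (ν + β) ≤ (j : ℝ) * ((∑ x ∈ Q, y x) / Q.card) - (-ν) := by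
      rw [mul_div_assoc', sub_neg_eq_add, ← sub_le_iff_le_add, le_div_iff₀ hQpos]
      have h1 : (j : ℝ) * (r * β - τ) ≤ j * ∑ x ∈ Q, y x :=
        mul_le_mul_of_nonneg_left hsum (by linarith)
      refine le_trans ?_ h1
      have h2 : 5 / 16 * β * Q.card ≤ β * (j * r) := by
        calc 5 / 16 * β * Q.card = β * (5 / 16 * Q.card) := by ring
          _ ≤ β * (j * r) := mul_le_mul_of_nonneg_left (by linarith) hβ0.le
      have h3 : j * τ ≤ 11 / 16 * ν * Q.card := by
        calc j * τ ≤ 11 / 24 * ν * M := hτ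
          _ = 11 / 16 * ν * (2 / 3 * M) := by ring
          _ ≤ 11 / 16 * ν * Q.card := mul_le_mul_of_nonneg_left hQM (by positivity)
      nlinarith
    have hlow := low_set Q y j (by
        have : 32 * (j : ℝ) ≤ Q.card := by linarith
        exact_mod_cast this) hQpos' (lo := -β) (B := ν + β) (θ := -ν) (t := 5 / 16 * (ν + β))
      (by linarith) hβQ (fun x hx => by linarith [hy x (hQP hx)]) hp1 (by linarith) le_rfl
    exact hlow

/-- the functional form -/
theorem feige_one (y : ι → ℝ) (P : Finset ι) (j : ℕ) (hM1 : 48 * j ≤ P.card)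
    (hy : ∀ x ∈ P, y x ≤ 1) (hs : -3 ≤ ∑ x ∈ P, y x) :
    7 / 100 ≤ sv y j P (fun s => ind 1 s) := by
  rcases Nat.eq_zero_or_pos j with rfl | hj
  · rw [sv_zero]
    unfold ind
    norm_num
  · have hMr : 48 * (j : ℝ) ≤ P.card := by exact_mod_cast hM1
    have h1 := feige_gen P y j hj hM1 one_pos hy hs (by
      have : (0 : ℝ) ≤ j := Nat.cast_nonneg j
      linarith)
    have h2 := sv_eq y j P (fun s => ind 1 s) (by omega)
    have hC : (0 : ℝ) < (P.card.choose j : ℝ) := by exact_mod_cast Nat.choose_pos (by omega)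
    have h3 : (((powersetCard j P).filter (fun V => -1 < ∑ x ∈ V, y x)).card : ℝ)
        = ∑ V ∈ powersetCard j P, ind 1 (∑ x ∈ V, y x) := by
      rw [card_filter]
      push_cast
      rfl
    rw [h3, ← h2] at h1
    exact le_of_mul_le_mul_right h1 hC

/-- the crossing argument -/
theorem crossing' (y : ι → ℝ) (P0 : Finset ι) (hy : ∀ x ∈ P0, y x ≤ 1) (k L : ℕ)
    (hL1 : 48 * k ≤ L) (hL0 : 0 < L) (j : ℕ) : ∀ (P : Finset ι) (s0 : ℝ), P ⊆ P0 →
    j + 1 ≤ k → L + (j + 1) ≤ P.card → s0 < 1 → -1 ≤ s0 + ∑ x ∈ P, y x →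
    sv y j P (fun s => if s0 + s ≤ -1 then 1 else 0) + s0
      ≤ 43 * sv y (j + 1) P (fun s => if 0 < s0 + s then 1 else 0) + (j + 1) * (2 / L) := by
  have hLr : (0 : ℝ) < L := by exact_mod_cast hL0
  have hδ : (0 : ℝ) < 2 / L := by positivity
  induction j with
  | zero =>
    intro P s0 hP _ hc hs0 htot
    rw [sv_zero, sv_succ]
    simp only [sv_zero, add_zero, zero_add]
    have hcr : (L : ℝ) + 1 ≤ P.card := by exact_mod_cast hc
    have hP0 : (0 : ℝ) < P.card := by linarith
    set p := (∑ x ∈ P, (if 0 < s0 + y x then (1 : ℝ) else 0)) / P.card with hp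
    have hpnn : 0 ≤ p := by
      apply div_nonneg _ hP0.le
      apply sum_nonneg
      intro x _
      split_ifs <;> norm_num
    have h1 : ∑ x ∈ P, (s0 + y x) ≤ 2 * (p * P.card) := by
      have e : p * P.card = ∑ x ∈ P, (if 0 < s0 + y x then (1 : ℝ) else 0) := by
        rw [hp]
        field_simp
      rw [e, mul_sum]
      apply sum_le_sum
      intro x hx
      split_ifs with h
      · have := hy x (hP hx)
        linarith
      · linarith
    rw [sum_add_distrib, sum_const, nsmul_eq_mul] at h1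
    have h2 : s0 ≤ 2 * p + 2 / L := by
      have h3 : (P.card : ℝ) * s0 ≤ 2 * (p * P.card) + 2 := by linarith
      have h4 : (P.card : ℝ) * (2 / L) ≥ 2 := by
        rw [ge_iff_le, mul_div_assoc', le_div_iff₀ hLr]
        nlinarith
      have h5 : (P.card : ℝ) * s0 ≤ P.card * (2 * p + 2 / L) := by nlinarith
      exact le_of_mul_le_mul_left h5 hP0
    split_ifs with h
    · push_cast
      linarith
    · push_cast
      linarith
  | succ j ih =>
    intro P s0 hP hjk hc hs0 htot
    have hcr : (L : ℝ) + (j + 1 + 1) ≤ P.card := by exact_mod_cast hc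
    have hj0 : (0 : ℝ) ≤ j := Nat.cast_nonneg j
    have hP0 : (0 : ℝ) < P.card := by linarith
    rw [sv_succ, sv_succ y (j + 1)]
    have hx : ∀ x ∈ P, sv y j (P.erase x) (fun s => if s0 + (s + y x) ≤ -1 then 1 else 0)
        + (s0 + y x) ≤ 43 * sv y (j + 1) (P.erase x) (fun s => if 0 < s0 + (s + y x) then 1 else 0)
          + ((j : ℝ) + 1) * (2 / L) := by
      intro x hx
      have hyx := hy x (hP hx)
      have hsub : P.erase x ⊆ P0 := (erase_subset _ _).trans hP
      have hcard : L + (j + 1) ≤ (P.erase x).card := by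
        rw [card_erase_of_mem hx]
        omega
      have htot' : -1 ≤ (s0 + y x) + ∑ z ∈ P.erase x, y z := by
        rw [add_assoc, add_sum_erase P y hx]
        exact htot
      rcases lt_or_ge (s0 + y x) 1 with hlt | hge
      · have h1 := ih (P.erase x) (s0 + y x) hsub (by omega) hcard hlt htot'
        have e1 : (fun s : ℝ => if s0 + (s + y x) ≤ -1 then (1 : ℝ) else 0)
            = (fun s => if s0 + y x + s ≤ -1 then 1 else 0) := by
          funext s
          rw [show s0 + (s + y x) = s0 + y x + s by ring]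
        have e2 : (fun s : ℝ => if 0 < s0 + (s + y x) then (1 : ℝ) else 0)
            = (fun s => if 0 < s0 + y x + s then 1 else 0) := by
          funext s
          rw [show s0 + (s + y x) = s0 + y x + s by ring]
        rw [e1, e2]
        exact h1
      · have h1 : sv y j (P.erase x) (fun s => if s0 + (s + y x) ≤ -1 then 1 else 0) ≤ 1 :=
          sv_le_one y j _ _ (fun s => by split_ifs <;> norm_num)
        have h2 : 7 / 100 ≤ sv y (j + 1) (P.erase x) (fun s => ind 1 s) := by
          apply feige_one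
          · omega
          · exact fun z hz => hy z (hsub hz)
          · linarith
        have h3 : sv y (j + 1) (P.erase x) (fun s => ind 1 s)
            ≤ sv y (j + 1) (P.erase x) (fun s => if 0 < s0 + (s + y x) then 1 else 0) := by
          apply sv_mono
          intro s
          unfold ind
          split_ifs with h4 h5
          · exact le_rfl
          · exfalso
            apply h5
            linarith
          · norm_num
          · exact le_rfl
        have h4 : 0 ≤ ((j : ℝ) + 1) * (2 / L) := by positivity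
        linarith
    have hsum := sum_le_sum hx
    rw [sum_add_distrib, sum_add_distrib, sum_add_distrib, sum_const, sum_const, nsmul_eq_mul,
      nsmul_eq_mul, ← mul_sum] at hsum
    set A := ∑ x ∈ P, sv y j (P.erase x) (fun s => if s0 + (s + y x) ≤ -1 then 1 else 0) with hA
    set B := ∑ x ∈ P, sv y (j + 1) (P.erase x) (fun s => if 0 < s0 + (s + y x) then 1 else 0)
      with hB
    have h5 : (P.card : ℝ) * (2 / L) ≥ 2 := by
      rw [ge_iff_le, mul_div_assoc', le_div_iff₀ hLr]
      nlinarith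
    have h6 : (A / P.card + s0) * P.card
        ≤ (43 * (B / P.card) + (((j + 1 : ℕ) : ℝ) + 1) * (2 / L)) * P.card := by
      have e1 : (A / P.card + s0) * P.card = A + P.card * s0 := by
        field_simp
      have e2 : (43 * (B / P.card) + (((j + 1 : ℕ) : ℝ) + 1) * (2 / L)) * P.card
          = 43 * B + P.card * (((j : ℝ) + 1) * (2 / L)) + P.card * (2 / L) := by
        push_cast
        field_simp
        ring
      rw [e1, e2]
      linarith
    exact le_of_mul_le_mul_right h6 hP0

/-- number of `κ`-subsets of sum at most `-1` -/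
noncomputable def low (κ : ℕ) (y : ι → ℝ) (Q : Finset ι) : ℕ :=
  ((powersetCard κ Q).filter (fun W => ∑ x ∈ W, y x ≤ -1)).card

/-- number of `k`-subsets of positive sum -/
noncomputable def pos (k : ℕ) (y : ι → ℝ) (Q : Finset ι) : ℕ :=
  ((powersetCard k Q).filter (fun V => 0 < ∑ x ∈ V, y x)).card

/-- the crossing argument for sets -/
theorem cross_set {κ N : ℕ} (hN1 : 49 * (κ + 1) ≤ N) (Q : Finset ι) (y : ι → ℝ)
    (hy : ∀ i ∈ Q, y i ≤ 1) (hN : Q.card = N) (hs : -1 ≤ ∑ x ∈ Q, y x) :
    (low κ y Q : ℝ) / (N.choose κ : ℝ)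
      ≤ 43 * ((pos (κ + 1) y Q : ℝ) / (N.choose (κ + 1) : ℝ))
        + ((κ : ℝ) + 1) * (2 / ((N : ℝ) - (κ + 1))) := by
  have hkN : κ + 1 ≤ N := by omega
  have hc := crossing' y Q hy (κ + 1) (N - (κ + 1)) (by omega) (by omega) κ Q 0 (Subset.refl Q)
    le_rfl (by omega) one_pos (by linarith)
  have e1 := sv_eq y κ Q (fun s => if (0 : ℝ) + s ≤ -1 then (1 : ℝ) else 0) (by omega)
  have e2 := sv_eq y (κ + 1) Q (fun s => if (0 : ℝ) < 0 + s then (1 : ℝ) else 0) (by omega)
  rw [hN] at e1 e2
  have f1 : ∑ V ∈ powersetCard κ Q, (if (0 : ℝ) + ∑ x ∈ V, y x ≤ -1 then (1 : ℝ) else 0)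
      = low κ y Q := by
    unfold low
    rw [card_filter]
    push_cast
    apply sum_congr rfl
    intro V _
    rw [zero_add]
  have f2 : ∑ V ∈ powersetCard (κ + 1) Q, (if (0 : ℝ) < 0 + ∑ x ∈ V, y x then (1 : ℝ) else 0)
      = pos (κ + 1) y Q := by
    unfold pos
    rw [card_filter]
    push_cast
    apply sum_congr rfl
    intro V _
    rw [zero_add]
  have hC1 : (0 : ℝ) < (N.choose κ : ℝ) := by exact_mod_cast Nat.choose_pos (by omega)
  have hC2 : (0 : ℝ) < (N.choose (κ + 1) : ℝ) := by exact_mod_cast Nat.choose_pos hkN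
  have g1 : sv y κ Q (fun s => if (0 : ℝ) + s ≤ -1 then (1 : ℝ) else 0)
      = (low κ y Q : ℝ) / (N.choose κ : ℝ) := by
    rw [eq_div_iff hC1.ne', e1, ← f1]
  have g2 : sv y (κ + 1) Q (fun s => if (0 : ℝ) < 0 + s then (1 : ℝ) else 0)
      = (pos (κ + 1) y Q : ℝ) / (N.choose (κ + 1) : ℝ) := by
    rw [eq_div_iff hC2.ne', e2, ← f2]
  rw [g1, g2, add_zero] at hc
  have hcast : ((N - (κ + 1) : ℕ) : ℝ) = (N : ℝ) - (κ + 1) := by
    rw [Nat.cast_sub hkN]
    push_cast
    ring
  rw [hcast] at hc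
  exact hc

end

end Pool.Agent.KR5
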