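import Pool.Agent.KR5.Opt
import Pool.Agent.KR4.Mms

/-!
# All total doses: `k` close to `n`
-/

namespace Pool.Agent.KR5

open Finset AK K3

/-- at least `C(n - 1, l - 1)` of the `l`-subsets of `n` reals of positive sum have positive sum -/
def MMS (n l : ℕ) : Prop :=
  ∀ y : Fin n → ℝ, 0 < ∑ i, y i → (n - 1).choose (l - 1) ≤ pos l y univ

theorem pos_scale {ι : Type*} [DecidableEq ι] (k : ℕ) (y : ι → ℝ) (Q : Finset ι) {c : ℝ}
    (hc : 0 < c) : pos k (fun x => y x / c) Q = pos k y Q := by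
  unfold pos
  congr 1
  apply filter_congr
  intro V _
  rw [← sum_div]
  constructor
  · intro h
    by_contra hcon
    push Not at hcon
    exact absurd h (not_lt.2 (div_nonpos_of_nonpos_of_nonneg hcon hc.le))
  · intro h
    exact div_pos h hc

theorem mms_of_key {K : ℕ} (hK : 1 ≤ K) (hkey : Key K) (n l : ℕ) (hl : 1 ≤ l)
    (hn : (K + 1) * l ≤ n) : MMS n l := by
  intro y0 hy0
  obtain ⟨κ, rfl⟩ : ∃ κ, l = κ + 1 := ⟨l - 1, by omega⟩
  have hexp : (K + 1) * (κ + 1) = K * (κ + 1) + (κ + 1) := by ring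
  have hKk : κ + 1 ≤ K * (κ + 1) := Nat.le_mul_of_pos_left _ (by omega)
  have hn0 : 0 < n := by omega
  have hne : (univ : Finset (Fin n)).Nonempty := ⟨⟨0, hn0⟩, mem_univ _⟩
  obtain ⟨e, _, hmax⟩ := exists_max_image univ y0 hne
  have he0 : 0 < y0 e := by
    by_contra hcon
    push Not at hcon
    have : ∑ i, y0 i ≤ 0 := sum_nonpos (fun i hi => (hmax i hi).trans hcon)
    linarith
  rw [← pos_scale (κ + 1) y0 univ he0]
  set y : Fin n → ℝ := fun x => y0 x / y0 e with hy
  have hye : y e = 1 := by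
    simp only [hy]
    exact div_self he0.ne'
  have hy1 : ∀ i, y i ≤ 1 := by
    intro i
    simp only [hy]
    rw [div_le_one he0]
    exact hmax i (mem_univ i)
  have hsum : 0 < ∑ i, y i := by
    simp only [hy]
    rw [← sum_div]
    exact div_pos hy0 he0
  obtain ⟨N, hN⟩ : ∃ N, n = N + 1 := ⟨n - 1, by omega⟩
  have hQ : (univ.erase e).card = N := by
    rw [card_erase_of_mem (mem_univ e), card_univ, Fintype.card_fin]
    omega
  have hN2 : K * (κ + 1) ≤ N := by omega
  have hQs : -1 < ∑ x ∈ univ.erase e, y x := by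
    have := add_sum_erase univ y (mem_univ e)
    linarith
  have h1 := hkey n κ N hN2 (univ.erase e) y (fun i _ => hy1 i) hQ hQs
  -- `low ≤ pos`
  have hC : (0 : ℝ) < (N.choose κ : ℝ) := by exact_mod_cast Nat.choose_pos (by omega)
  have h2 := Nat.choose_succ_right_eq N κ
  have h3 : (N.choose (κ + 1) : ℝ) * ((κ : ℝ) + 1) = (N.choose κ : ℝ) * ((N : ℝ) - κ) := by
    have h4 : ((N.choose (κ + 1) * (κ + 1) : ℕ) : ℝ) = ((N.choose κ * (N - κ) : ℕ) : ℝ) := by
      rw [h2]
    rw [Nat.cast_mul, Nat.cast_mul, Nat.cast_sub (by omega)] at h4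
    push_cast at h4
    exact h4
  have hk0 : (0 : ℝ) < (κ : ℝ) + 1 := by positivity
  have hNK : (K : ℝ) * ((κ : ℝ) + 1) ≤ (N : ℝ) - κ := by
    have h4 : K * (κ + 1) ≤ N - κ := by omega
    have h5 : ((K * (κ + 1) : ℕ) : ℝ) ≤ ((N - κ : ℕ) : ℝ) := by exact_mod_cast h4
    rw [Nat.cast_sub (by omega)] at h5
    push_cast at h5
    exact h5
  have hKr : (1 : ℝ) ≤ K := by exact_mod_cast hK
  have hlow : (low κ y (univ.erase e) : ℝ) ≤ pos (κ + 1) y (univ.erase e) := by
    have hl0 : (0 : ℝ) ≤ low κ y (univ.erase e) := Nat.cast_nonneg _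
    have h5 : (low κ y (univ.erase e) : ℝ) * ((K : ℝ) * ((κ : ℝ) + 1)) * (N.choose κ : ℝ)
        ≤ (pos (κ + 1) y (univ.erase e) : ℝ) * ((K : ℝ) * ((κ : ℝ) + 1)) * (N.choose κ : ℝ) := by
      calc (low κ y (univ.erase e) : ℝ) * ((K : ℝ) * ((κ : ℝ) + 1)) * (N.choose κ : ℝ)
          ≤ (low κ y (univ.erase e) : ℝ) * ((N : ℝ) - κ) * (N.choose κ : ℝ) := by
            apply mul_le_mul_of_nonneg_right _ hC.le
            exact mul_le_mul_of_nonneg_left hNK hl0
        _ = ((low κ y (univ.erase e) : ℝ) * (N.choose (κ + 1) : ℝ)) * ((κ : ℝ) + 1) := by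
            rw [mul_assoc, mul_assoc, mul_comm ((N : ℝ) - κ), ← h3]
        _ ≤ (K * (pos (κ + 1) y (univ.erase e) * (N.choose κ : ℝ))) * ((κ : ℝ) + 1) :=
            mul_le_mul_of_nonneg_right h1 hk0.le
        _ = _ := by ring
    have h6 : (0 : ℝ) < (K : ℝ) * ((κ : ℝ) + 1) := by positivity
    exact le_of_mul_le_mul_right (le_of_mul_le_mul_right h5 hC) h6
  have hlow' : low κ y (univ.erase e) ≤ pos (κ + 1) y (univ.erase e) := by exact_mod_cast hlow
  -- the sets which contain `e`
  have hsplit : ((powersetCard κ (univ.erase e)).filter (fun V => -y e < ∑ x ∈ V, y x)).card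
      + pos (κ + 1) y (univ.erase e) ≤ pos (κ + 1) y univ := by
    unfold pos
    rw [← card_image_of_injOn (s := (powersetCard κ (univ.erase e)).filter
      (fun V => -y e < ∑ x ∈ V, y x)) (f := fun V => insert e V)]
    · rw [← card_union_of_disjoint]
      · apply card_le_card
        intro V hV
        rw [mem_union, mem_image] at hV
        rw [mem_filter, mem_powersetCard]
        rcases hV with ⟨W, hW, rfl⟩ | hV
        · rw [mem_filter, mem_powersetCard] at hW
          have hωV : e ∉ W := fun h => notMem_erase e univ (hW.1.1 h)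
          refine ⟨⟨subset_univ _, ?_⟩, ?_⟩
          · rw [card_insert_of_notMem hωV, hW.1.2]
          · rw [sum_insert hωV]
            linarith [hW.2]
        · rw [mem_filter, mem_powersetCard] at hV
          exact ⟨⟨subset_univ _, hV.1.2⟩, hV.2⟩
      · rw [Finset.disjoint_left]
        intro V hV hV2
        rw [mem_image] at hV
        obtain ⟨W, _, rfl⟩ := hV
        rw [mem_filter, mem_powersetCard] at hV2
        exact notMem_erase e univ (hV2.1.1 (mem_insert_self e W))
    · intro V hV V' hV' h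
      rw [mem_coe, mem_filter, mem_powersetCard] at hV hV'
      have h1 : e ∉ V := fun h => notMem_erase e univ (hV.1.1 h)
      have h2 : e ∉ V' := fun h => notMem_erase e univ (hV'.1.1 h)
      have h3 : (insert e V).erase e = (insert e V').erase e := by
        have h' : insert e V = insert e V' := h
        rw [h']
      rwa [erase_insert h1, erase_insert h2] at h3
  have hcompl : ((powersetCard κ (univ.erase e)).filter (fun V => -y e < ∑ x ∈ V, y x)).card
      + low κ y (univ.erase e) = N.choose κ := by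
    unfold low
    rw [← hQ, ← card_powersetCard κ (univ.erase e), ← card_filter_add_card_filter_not
      (s := powersetCard κ (univ.erase e)) (fun V => -y e < ∑ x ∈ V, y x)]
    congr 2
    apply filter_congr
    intro V _
    rw [hye, not_lt]
  have e1 : n - 1 = N := by omega
  rw [e1, Nat.add_sub_cancel]
  omega

/-- complements: the conjecture for `k = n - l` and all total doses follows from `MMS n l` -/
theorem full_of_mms (n k : ℕ) (h : ℝ) (hk : 1 ≤ k) (hkn : k < n) (hh : 1 < h)
    (hm : MMS n (n - k)) (x : Fin n → ℝ) (hx : ∑ i, x i = h) (hlt : h * k < n) :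
    Set.ncard {V : Finset (Fin n) | V.card = k ∧ (1 : ℝ) ≤ ∑ i ∈ V, x i} ≤
      Set.ncard {V : Finset (Fin n) | V.card = k ∧ (1 : ℝ) ≤ ∑ i ∈ V,
        (if i.val < min n ⌊h * ((1 : ℕ) : ℝ)⌋₊ then (1 : ℝ) / ((1 : ℕ) : ℝ) else 0)} := by
  rw [ncard_eq_cnt', ncard_eq_cnt']
  obtain ⟨l, hl⟩ : ∃ l, l = n - k := ⟨_, rfl⟩
  rw [← hl] at hm
  have hl1 : 1 ≤ l := by omega
  have hnl : n = k + l := by omega
  have hl0 : (0 : ℝ) < l := by exact_mod_cast hl1
  have hnr : (n : ℝ) = k + l := by exact_mod_cast hnl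
  set c : ℝ := (h - 1) / l with hc
  have hcl : l * c = h - 1 := by
    rw [hc]
    field_simp
  have h1 := hm (fun i => x i - c) (by
    rw [sum_sub_distrib, hx, sum_const, card_univ, Fintype.card_fin, nsmul_eq_mul, hc,
      mul_div_assoc', sub_pos, div_lt_iff₀ hl0, hnr]
    rw [hnr] at hlt
    nlinarith)
  have h2 : pos l (fun i => x i - c) univ ≤ nl k x univ := by
    unfold pos nl
    apply card_le_card_of_injOn (fun V => univ \ V)
    · intro V hV
      rw [mem_coe, mem_filter, mem_powersetCard] at hV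
      rw [mem_coe, mem_filter, mem_powersetCard]
      refine ⟨⟨subset_univ _, ?_⟩, ?_⟩
      · rw [card_sdiff_of_subset (subset_univ _), card_univ, Fintype.card_fin, hV.1.2]
        omega
      · have h3 := sum_sdiff (f := x) (subset_univ V)
        have h4 := hV.2
        rw [sum_sub_distrib, sum_const, nsmul_eq_mul, hV.1.2, hcl] at h4
        linarith
    · intro V _ V' _ h
      have h' : univ \ V = univ \ V' := h
      have h3 : univ \ (univ \ V) = univ \ (univ \ V') := by rw [h']
      rwa [Finset.sdiff_sdiff_eq_self (subset_univ V),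
        Finset.sdiff_sdiff_eq_self (subset_univ V')] at h3
  have hn0 : 0 < n := by omega
  set d : Fin n → ℝ := fun i =>
    if i.val < min n ⌊h * ((1 : ℕ) : ℝ)⌋₊ then (1 : ℝ) / ((1 : ℕ) : ℝ) else 0 with hd
  have hm1 : 0 < min n ⌊h * ((1 : ℕ) : ℝ)⌋₊ := by
    apply lt_min hn0
    rw [Nat.floor_pos]
    push_cast
    linarith
  have hd0 : ∀ i, 0 ≤ d i := by
    intro i
    simp only [hd]
    split_ifs
    · norm_num
    · exact le_rfl
  have h3 : nl k d univ ≤ (n - 1).choose k := by
    have h4 : nl k d univ ≤ (powersetCard k (univ.erase (⟨0, hn0⟩ : Fin n))).card := by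
      unfold nl
      apply card_le_card
      intro V hV
      rw [mem_filter, mem_powersetCard] at hV
      rw [mem_powersetCard]
      refine ⟨?_, hV.1.2⟩
      intro i hi
      rw [mem_erase]
      refine ⟨?_, mem_univ i⟩
      rintro rfl
      have h5 : d ⟨0, hn0⟩ ≤ ∑ x ∈ V, d x :=
        single_le_sum (fun x _ => hd0 x) hi
      have h6 : d ⟨0, hn0⟩ = 1 := by
        simp only [hd]
        rw [if_pos hm1]
        norm_num
      linarith [hV.2]
    rw [card_powersetCard, card_erase_of_mem (mem_univ _), card_univ, Fintype.card_fin] at h4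
    exact h4
  have h4 : (n - 1).choose k = (n - 1).choose (l - 1) := by
    rw [← Nat.choose_symm (by omega : k ≤ n - 1)]
    congr 1
    omega
  have h5 := cnt_add_nl k x univ
  have h6 := cnt_add_nl k d univ
  rw [card_univ, Fintype.card_fin] at h5 h6
  omega

/-- multiples -/
theorem mms_mul (l : ℕ) (hl : 1 ≤ l) : ∀ s : ℕ, 1 ≤ s → ∀ (ι : Type) [DecidableEq ι]
    (X : Finset ι) (y : ι → ℝ), X.card = s * l → 0 < ∑ i ∈ X, y i →
    (s * l - 1).choose (l - 1) ≤ Pool.Agent.KR4.pos y l X := by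
  intro s hs
  induction s, hs using Nat.le_induction with
  | base =>
    intro ι _ X y hX hy
    rw [one_mul] at hX
    rw [one_mul, Nat.choose_self]
    unfold Pool.Agent.KR4.pos
    rw [Nat.one_le_iff_ne_zero, ← Nat.pos_iff_ne_zero, card_pos]
    refine ⟨X, ?_⟩
    rw [mem_filter, mem_powersetCard]
    exact ⟨⟨Subset.refl X, hX⟩, hy⟩
  | succ s hs ih =>
    intro ι _ X y hX hy
    have h1 := Pool.Agent.KR4.step (s * l) l hl (Nat.le_mul_of_pos_left _ hs)
      (fun X y hX hy => ih ι X y hX hy) X y (by rw [hX]; ring) hy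
    rwa [show s * l + l = (s + 1) * l by ring] at h1

theorem mms_dvd {n l : ℕ} (hl : 1 ≤ l) (hn : 1 ≤ n) (hd : l ∣ n) : MMS n l := by
  obtain ⟨s, rfl⟩ := hd
  intro y hy
  have hs : 1 ≤ s := by
    rcases Nat.eq_zero_or_pos s with rfl | h
    · omega
    · exact h
  have h1 := mms_mul l hl s hs (Fin (l * s)) univ y
    (by rw [card_univ, Fintype.card_fin]; ring) hy
  rw [mul_comm s l] at h1
  exact h1

theorem mms_one {n l : ℕ} (hl : 1 ≤ l) (hn : 4 * l < n) (hd : l ∣ n - 1) : MMS n l := by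
  obtain ⟨s, hs⟩ := hd
  have hn' : n = s * l + 1 := by
    rw [mul_comm] at hs
    omega
  have hs4 : 4 ≤ s := by
    by_contra hcon
    push Not at hcon
    have : s * l ≤ 3 * l := Nat.mul_le_mul_right _ (by omega)
    omega
  subst hn'
  intro y hy
  have h1 := Pool.Agent.KR4.mms l hl s hs4 univ y (by rw [card_univ, Fintype.card_fin]) hy
  rw [Nat.add_sub_cancel]
  exact h1

/-- all total doses -/
theorem full {K : ℕ} (hK : 1 ≤ K) (hkey : Key K) (n k : ℕ) (h : ℝ) (hk : 1 ≤ k) (hh : 1 < h)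
    (hn : (K + 1) * (n - k) ≤ n ∨ (n - k ∣ n - 1 ∧ 4 * (n - k) < n) ∨ n - k ∣ n)
    (x : Fin n → ℝ) (hx : ∑ i, x i = h) :
    ∃ j : ℕ, 0 < j ∧ (h * k < n → j = 1) ∧ (n ≤ h * k → j = k) ∧
      Set.ncard {V : Finset (Fin n) | V.card = k ∧ (1 : ℝ) ≤ ∑ i ∈ V, x i} ≤
      Set.ncard {V : Finset (Fin n) | V.card = k ∧ (1 : ℝ) ≤ ∑ i ∈ V,
        (if i.val < min n ⌊h * (j : ℝ)⌋₊ then (1 : ℝ) / (j : ℝ) else 0)} := by
  have hkr : (1 : ℝ) ≤ k := by exact_mod_cast hk
  rcases lt_or_ge (h * k) (n : ℝ) with hlt | hge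
  · have hkn : k < n := by
      have : (k : ℝ) < n := by nlinarith
      exact_mod_cast this
    have hl : 1 ≤ n - k := by omega
    have hm : MMS n (n - k) := by
      rcases hn with h1 | h1 | h1
      · exact mms_of_key hK hkey n (n - k) hl h1
      · exact mms_one hl h1.2 h1.1
      · exact mms_dvd hl (by omega) h1
    refine ⟨1, one_pos, fun _ => rfl, fun h' => absurd h' (not_le.2 hlt), ?_⟩
    exact full_of_mms n k h hk hkn hh hm x hx hlt
  · refine ⟨k, by omega, fun h' => absurd h' (not_lt.2 hge), fun _ => rfl, ?_⟩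
    rw [ncard_eq_cnt', ncard_eq_cnt']
    refine le_trans ?_ (dist_k hk (min_le_left _ _))
    have : n ≤ ⌊h * (k : ℝ)⌋₊ := by
      rw [Nat.le_floor_iff (by positivity)]
      exact hge
    rw [min_eq_left this]
    have := cnt_le_choose 1 k x univ
    rwa [card_univ, Fintype.card_fin] at this

end Pool.Agent.KR5
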