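import Pool.Agent.KR5.Mom

/-!
# Lower tail bounds for random subsets
-/

namespace Pool.Agent.KR5

open Finset AK

/-- comparison of the coefficients -/
theorem coef_W (j M : ℝ) (hM : 4 < M) : r2 j M - 2 * r3 j M + r4 j M
    = j * (j - 1) * (M - j) * (M - j - 1) / (M * (M - 1) * (M - 2) * (M - 3)) := by
  unfold r2 r3 r4
  have h0 : M ≠ 0 := by linarith
  have h1 : M - 1 ≠ 0 := by linarith
  have h4 : M - 2 ≠ 0 := by linarith
  have h5 : M - 3 ≠ 0 := by linarith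
  field_simp
  ring

theorem coef_V (j M : ℝ) (hM : 4 < M) : r1 j M - r2 j M = j * (M - j) / (M * (M - 1)) := by
  unfold r1 r2
  have h0 : M ≠ 0 := by linarith
  have h1 : M - 1 ≠ 0 := by linarith
  field_simp
  ring

theorem coef_le {j M : ℝ} (hj : 1 ≤ j) (hM : 4 < M) (h : 32 * j ≤ M) :
    r2 j M - 2 * r3 j M + r4 j M ≤ (r1 j M - r2 j M) ^ 2 := by
  rw [coef_W j M hM, coef_V j M hM, div_pow]
  have h1 : 0 < M * (M - 1) * (M - 2) * (M - 3) := by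
    apply mul_pos (mul_pos (mul_pos (by linarith) (by linarith)) (by linarith)) (by linarith)
  have h2 : 0 < (M * (M - 1)) ^ 2 := by
    apply pow_pos
    exact mul_pos (by linarith) (by linarith)
  rw [div_le_div_iff₀ h1 h2]
  have h3 : (j - 1) * (M - j - 1) * (M * (M - 1)) ≤ j * (M - j) * ((M - 2) * (M - 3)) := by
    have e : j * (M - j) * ((M - 2) * (M - 3)) - (j - 1) * (M - j - 1) * (M * (M - 1))
        = (M - 1) ^ 2 * M - (j * (M - j)) * (4 * M - 6) := by ring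
    have h4 : j * (M - j) ≤ M / 32 * M := by
      apply mul_le_mul (by linarith) (by linarith) (by linarith) (by linarith)
    have h5 : (j * (M - j)) * (4 * M - 6) ≤ M / 32 * M * (4 * M - 6) :=
      mul_le_mul_of_nonneg_right h4 (by linarith)
    have h6 : M / 32 * M * (4 * M - 6) ≤ (M - 1) ^ 2 * M := by nlinarith [sq_nonneg (M - 4)]
    linarith
  have h7 : 0 ≤ j * (M - j) * (M * (M - 1)) := by
    apply mul_nonneg (mul_nonneg (by linarith) (by linarith)) (mul_nonneg (by linarith) (by linarith))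
  calc j * (j - 1) * (M - j) * (M - j - 1) * (M * (M - 1)) ^ 2
      = (j * (M - j) * (M * (M - 1))) * ((j - 1) * (M - j - 1) * (M * (M - 1))) := by ring
    _ ≤ (j * (M - j) * (M * (M - 1))) * (j * (M - j) * ((M - 2) * (M - 3))) :=
        mul_le_mul_of_nonneg_left h3 h7
    _ = _ := by ring

section
variable {ι : Type*} [DecidableEq ι]

/-- the variance of the sum of a random subset -/
noncomputable def vr (z : ι → ℝ) (j : ℕ) (P : Finset ι) : ℝ :=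
  (r1 j P.card - r2 j P.card) * ∑ x ∈ P, z x ^ 2

/-- the fourth moment of the sum of a random subset -/
noncomputable def fr (z : ι → ℝ) (j : ℕ) (P : Finset ι) : ℝ :=
  m4 (r1 j P.card) (r2 j P.card) (r3 j P.card) (r4 j P.card) 0 (∑ x ∈ P, z x ^ 2)
    (∑ x ∈ P, z x ^ 3) (∑ x ∈ P, z x ^ 4)

theorem sv_mean (z : ι → ℝ) (j : ℕ) (P : Finset ι) (hP : j + 4 ≤ P.card)
    (hz : ∑ x ∈ P, z x = 0) : Mean (fun F => sv z j P F) (vr z j P) (fr z j P) := by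
  refine ⟨fun F G h => sv_mono z j P F G h, ?_⟩
  intro c0 c1 c2 c4
  have hm := moments z j P hP
  rw [hz] at hm
  show sv z j P (fun s => c0 + (c1 * s + (c2 * s ^ 2 + c4 * s ^ 4))) = _
  rw [sv_add z j P (fun _ => c0) (fun s => c1 * s + (c2 * s ^ 2 + c4 * s ^ 4)),
    sv_add z j P (fun s => c1 * s) (fun s => c2 * s ^ 2 + c4 * s ^ 4),
    sv_add z j P (fun s => c2 * s ^ 2) (fun s => c4 * s ^ 4), sv_mul z j P (fun s => s),
    sv_mul z j P (fun s => s ^ 2), sv_mul z j P (fun s => s ^ 4), sv_const z j P _ (by omega),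
    hm.1, hm.2.1, hm.2.2.2]
  unfold vr fr m1 m2
  ring

theorem vr_nonneg (z : ι → ℝ) (j : ℕ) (P : Finset ι) (hP : j + 4 ≤ P.card) :
    0 ≤ vr z j P := by
  unfold vr
  have hPr : (j : ℝ) + 4 ≤ P.card := by exact_mod_cast hP
  have hj : (0 : ℝ) ≤ j := Nat.cast_nonneg j
  rcases Nat.eq_zero_or_pos j with rfl | hj'
  · simp [r1, r2]
  have hj1 : (1 : ℝ) ≤ j := by exact_mod_cast hj'
  apply mul_nonneg
  · rw [coef_V _ _ (by linarith)]
    apply div_nonneg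
    · exact mul_nonneg (by linarith) (by linarith)
    · exact mul_nonneg (by linarith) (by linarith)
  · exact sum_nonneg (fun x _ => sq_nonneg _)

/-- the bound for the fourth moment -/
theorem fr_le (z : ι → ℝ) (j : ℕ) (P : Finset ι) (hj : 1 ≤ j) (hP : 32 * j ≤ P.card) (B : ℝ)
    (hB : ∀ x ∈ P, z x ^ 2 ≤ B ^ 2) : fr z j P ≤ 3 * vr z j P ^ 2 + B ^ 2 * vr z j P := by
  have hjr : (1 : ℝ) ≤ j := by exact_mod_cast hj
  have hPr : 32 * (j : ℝ) ≤ P.card := by exact_mod_cast hP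
  obtain ⟨M, hM⟩ : ∃ M : ℝ, M = P.card := ⟨_, rfl⟩
  rw [← hM] at hPr
  have hM4 : 4 < M := by linarith
  have hW := coef_le hjr hM4 hPr
  have hW0 : 0 ≤ r2 (j : ℝ) M - 2 * r3 (j : ℝ) M + r4 (j : ℝ) M := by
    rw [coef_W _ _ hM4]
    apply div_nonneg
    · apply mul_nonneg (mul_nonneg (mul_nonneg (by linarith) (by linarith)) (by linarith))
        (by linarith)
    · apply mul_nonneg (mul_nonneg (mul_nonneg (by linarith) (by linarith)) (by linarith))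
        (by linarith)
  have hV0 : 0 ≤ r1 (j : ℝ) M - r2 (j : ℝ) M := by
    rw [coef_V _ _ hM4]
    apply div_nonneg
    · exact mul_nonneg (by linarith) (by linarith)
    · exact mul_nonneg (by linarith) (by linarith)
  have hp4 : ∑ x ∈ P, z x ^ 4 ≤ B ^ 2 * ∑ x ∈ P, z x ^ 2 := by
    rw [mul_sum]
    apply sum_le_sum
    intro x hx
    have h1 := hB x hx
    have h2 := sq_nonneg (z x)
    calc z x ^ 4 = z x ^ 2 * z x ^ 2 := by ring
      _ ≤ B ^ 2 * z x ^ 2 := mul_le_mul_of_nonneg_right h1 h2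
  have hp4' : 0 ≤ ∑ x ∈ P, z x ^ 4 := sum_nonneg (fun x _ => by positivity)
  have hp2 : 0 ≤ ∑ x ∈ P, z x ^ 2 := sum_nonneg (fun x _ => by positivity)
  unfold fr vr
  rw [← hM]
  obtain ⟨p2, h2⟩ : ∃ p2, p2 = ∑ x ∈ P, z x ^ 2 := ⟨_, rfl⟩
  obtain ⟨p4, h4⟩ : ∃ p4, p4 = ∑ x ∈ P, z x ^ 4 := ⟨_, rfl⟩
  obtain ⟨p3, h3⟩ : ∃ p3, p3 = ∑ x ∈ P, z x ^ 3 := ⟨_, rfl⟩
  rw [← h2, ← h4] at hp4
  rw [← h2] at hp2
  rw [← h4] at hp4'
  rw [← h2, ← h3, ← h4]
  obtain ⟨q1, hq1⟩ : ∃ q1, q1 = r1 (j : ℝ) M := ⟨_, rfl⟩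
  obtain ⟨q2, hq2⟩ : ∃ q2, q2 = r2 (j : ℝ) M := ⟨_, rfl⟩
  obtain ⟨q3, hq3⟩ : ∃ q3, q3 = r3 (j : ℝ) M := ⟨_, rfl⟩
  obtain ⟨q4, hq4⟩ : ∃ q4, q4 = r4 (j : ℝ) M := ⟨_, rfl⟩
  rw [← hq1, ← hq2, ← hq3, ← hq4] at hW
  rw [← hq2, ← hq3, ← hq4] at hW0
  rw [← hq1, ← hq2] at hV0
  rw [← hq1, ← hq2, ← hq3, ← hq4]
  unfold m4
  have e : q1 * p4 + q2 * (4 * (0 * p3 - p4) + 3 * (p2 ^ 2 - p4))
      + 6 * q3 * (0 ^ 2 * p2 - 2 * 0 * p3 - p2 ^ 2 + 2 * p4)
      + q4 * (0 ^ 4 - 6 * 0 ^ 2 * p2 + 8 * 0 * p3 + 3 * p2 ^ 2 - 6 * p4)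
      = (q1 - q2) * p4 - 6 * ((q2 - 2 * q3 + q4) * p4) + 3 * ((q2 - 2 * q3 + q4) * p2 ^ 2) := by
    ring
  rw [e]
  have h5 : 0 ≤ (q2 - 2 * q3 + q4) * p4 := mul_nonneg hW0 hp4'
  have h6 : (q2 - 2 * q3 + q4) * p2 ^ 2 ≤ (q1 - q2) ^ 2 * p2 ^ 2 :=
    mul_le_mul_of_nonneg_right hW (sq_nonneg _)
  have h7 : (q1 - q2) * p4 ≤ (q1 - q2) * (B ^ 2 * p2) := mul_le_mul_of_nonneg_left hp4 hV0
  have e2 : 3 * ((q1 - q2) * p2) ^ 2 + B ^ 2 * ((q1 - q2) * p2)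
      = 3 * ((q1 - q2) ^ 2 * p2 ^ 2) + (q1 - q2) * (B ^ 2 * p2) := by ring
  rw [e2]
  linarith

/-- the lower bound for centred populations -/
theorem low_sv (z : ι → ℝ) (j : ℕ) (P : Finset ι) (hP : 32 * j ≤ P.card)
    (hz : ∑ x ∈ P, z x = 0) {B t : ℝ} (hB0 : 0 ≤ B) (hB : ∀ x ∈ P, z x ^ 2 ≤ B ^ 2) (ht : 0 < t)
    (hBt : 5 / 16 * B ≤ t) : 21 / 200 ≤ sv z j P (fun s => ind t s) := by
  rcases Nat.eq_zero_or_pos j with rfl | hj
  · rw [sv_zero]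
    unfold ind
    rw [if_pos (by linarith)]
    norm_num
  · exact (sv_mean z j P (by omega) hz).lower ht hBt hB0 (vr_nonneg z j P (by omega))
      (fr_le z j P hj hP B hB)

/-- centring -/
theorem centre_sum (P : Finset ι) (y : ι → ℝ) (hP : 0 < P.card) :
    ∑ x ∈ P, (y x - (∑ x ∈ P, y x) / P.card) = 0 := by
  have h : (0 : ℝ) < P.card := by exact_mod_cast hP
  rw [sum_sub_distrib, sum_const, nsmul_eq_mul]
  field_simp
  ring

theorem centre_sq (P : Finset ι) (y : ι → ℝ) (hP : 0 < P.card) {lo B : ℝ}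
    (h1 : ∀ x ∈ P, lo ≤ y x) (h2 : ∀ x ∈ P, y x ≤ lo + B) :
    ∀ x ∈ P, (y x - (∑ x ∈ P, y x) / P.card) ^ 2 ≤ B ^ 2 := by
  intro x hx
  have h : (0 : ℝ) < P.card := by exact_mod_cast hP
  have h3 : lo ≤ (∑ x ∈ P, y x) / P.card := by
    rw [le_div_iff₀ h]
    calc lo * P.card = ∑ x ∈ P, lo := by rw [sum_const, nsmul_eq_mul]; ring
      _ ≤ _ := sum_le_sum h1
  have h4 : (∑ x ∈ P, y x) / P.card ≤ lo + B := by
    rw [div_le_iff₀ h]
    calc ∑ x ∈ P, y x ≤ ∑ x ∈ P, (lo + B) := sum_le_sum h2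
      _ = (lo + B) * P.card := by rw [sum_const, nsmul_eq_mul]; ring
  have h5 := h1 x hx
  have h6 := h2 x hx
  apply sq_le_sq'
  · linarith
  · linarith

/-- the set form -/
theorem low_set (P : Finset ι) (y : ι → ℝ) (j : ℕ) (hM : 32 * j ≤ P.card) (hP : 0 < P.card)
    {lo B θ t : ℝ} (hB0 : 0 ≤ B) (h1 : ∀ x ∈ P, lo ≤ y x) (h2 : ∀ x ∈ P, y x ≤ lo + B)
    (ht : t ≤ j * ((∑ x ∈ P, y x) / P.card) - θ) (ht0 : 0 < t) (hBt : 5 / 16 * B ≤ t) :
    21 / 200 * (P.card.choose j : ℝ)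
      ≤ (((powersetCard j P).filter (fun V => θ < ∑ x ∈ V, y x)).card : ℝ) := by
  obtain ⟨μ, hμ⟩ : ∃ μ, μ = (∑ x ∈ P, y x) / P.card := ⟨_, rfl⟩
  rw [← hμ] at ht
  have hc := centre_sum P y hP
  have hs := centre_sq P y hP h1 h2
  rw [← hμ] at hc hs
  have h3 := low_sv (fun x => y x - μ) j P hM hc hB0 hs (t := j * μ - θ) (by linarith)
    (by linarith)
  have h4 := sv_eq (fun x => y x - μ) j P (fun s => ind (j * μ - θ) s) (by omega)
  have h5 : (((powersetCard j P).filter (fun V => θ < ∑ x ∈ V, y x)).card : ℝ)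
      = ∑ V ∈ powersetCard j P, ind (j * μ - θ) (∑ x ∈ V, (y x - μ)) := by
    rw [card_filter]
    push_cast
    apply sum_congr rfl
    intro V hV
    rw [mem_powersetCard] at hV
    unfold ind
    rw [sum_sub_distrib, sum_const, nsmul_eq_mul, hV.2]
    have : -(j * μ - θ) < ∑ x ∈ V, y x - j * μ ↔ θ < ∑ x ∈ V, y x := by
      constructor <;> intro h <;> linarith
    simp only [this]
  rw [h5, ← h4]
  exact mul_le_mul_of_nonneg_right h3 (Nat.cast_nonneg _)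

end

/-- large variance: even a small positive level is exceeded -/
theorem mean_shift {E : (ℝ → ℝ) → ℝ} {V U : ℝ} (hE : Mean E V U) {m : ℝ} (hm : 0 ≤ m)
    (hV : 0 < V) (hU : U ≤ 4 * V ^ 2) (hmV : 36 * m ^ 2 ≤ 8 / 3 * V) :
    7 / 240 ≤ E (fun s => if m < s then 1 else 0) := by
  set θ := Real.sqrt (8 / 3 * V) with hθ
  have hpos' : 0 < 8 / 3 * V := by positivity
  have hθ0 : 0 < θ := Real.sqrt_pos.2 hpos'
  have hθ2 : θ ^ 2 = 8 / 3 * V := Real.sq_sqrt hpos'.le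
  have hmθ : 6 * m ≤ θ := by
    have : (6 * m) ^ 2 ≤ θ ^ 2 := by rw [hθ2]; linarith
    exact (sq_le_sq₀ (by linarith) hθ0.le).1 this
  have h1 : E (fun s => (2 * (s / θ) + 3 * (s / θ) ^ 2 - (s / θ) ^ 4) / 5 - 1 / 12)
      ≤ E (fun s => if m < s then 1 else 0) := by
    apply hE.mono
    intro s
    obtain ⟨v, hv⟩ : ∃ v, v = s / θ := ⟨_, rfl⟩
    rw [← hv]
    split_ifs with h
    · nlinarith [sq_nonneg (v ^ 2 - 2), sq_nonneg (v - 1)]
    · push Not at h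
      have hv6 : v ≤ 1 / 6 := by
        rw [hv, div_le_iff₀ hθ0]
        linarith
      rcases le_or_gt v 0 with h0 | h0
      · have e : 2 * v + 3 * v ^ 2 - v ^ 4 = -((-v) * ((v + 1) ^ 2 * (2 - v))) := by ring
        have h1 : 0 ≤ (-v) * ((v + 1) ^ 2 * (2 - v)) := by
          apply mul_nonneg (by linarith)
          apply mul_nonneg (sq_nonneg _)
          linarith
        rw [e]
        linarith
      · have h2 : v ^ 2 ≤ 1 / 36 := by nlinarith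
        have h3 : 0 ≤ v ^ 4 := by positivity
        linarith
  refine le_trans ?_ h1
  have e : (fun s : ℝ => (2 * (s / θ) + 3 * (s / θ) ^ 2 - (s / θ) ^ 4) / 5 - 1 / 12)
      = (fun s => -(1 / 12) + ((2 / (5 * θ)) * s + ((3 / (5 * θ ^ 2)) * s ^ 2
        + (-(1 / (5 * θ ^ 4))) * s ^ 4))) := by
    funext s
    field_simp
    ring
  rw [e, hE.poly]
  have e4 : θ ^ 4 = (8 / 3 * V) ^ 2 := by
    rw [← hθ2]
    ring
  rw [hθ2, e4]
  have hA : 1 / (5 * (8 / 3 * V) ^ 2) * U ≤ 1 / (5 * (8 / 3 * V) ^ 2) * (4 * V ^ 2) :=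
    mul_le_mul_of_nonneg_left hU (by positivity)
  have e5 : 1 / (5 * (8 / 3 * V) ^ 2) * (4 * V ^ 2) = 9 / 80 := by
    field_simp
    norm_num
  have e6 : 3 / (5 * (8 / 3 * V)) * V = 9 / 40 := by
    field_simp
    norm_num
  rw [e6]
  rw [e5] at hA
  linarith

end Pool.Agent.KR5
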