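import Pool.Agent.KR5.Near

/-!
# The `1 / k`-distribution is optimal for `C(n, k) ≤ (1 + 1 / 150) C(N, k)`
-/

namespace Pool.Agent.KR5

open Finset AK

section
variable {ι : Type*} [DecidableEq ι]

theorem part_near {κ N : ℕ} (hN1 : 150 * (κ + 1) ≤ N) (Q R : Finset ι) (y : ι → ℝ)
    (hRQ : R ⊆ Q) (hN : Q.card = N) (hs : -1 < ∑ x ∈ Q, y x) (hR : ∀ x ∈ Q \ R, y x ≤ 0)
    (hR1 : -∑ x ∈ Q \ R, y x ≤ 151 / 50) (hR2 : ∑ x ∈ R, y x ≤ 101 / 50)
    (hR3 : ∑ x ∈ R, y x ^ 2 ≤ 47 * (((κ : ℝ) + 1) / N)) :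
    667 / 10000 * ((N - κ).choose (κ + 1) : ℝ) * (((powersetCard κ Q).filter
        (fun W => -(5 / 2) < ∑ x ∈ W, y x ∧ ∑ x ∈ W, y x ≤ -1)).card : ℝ)
      ≤ 78 / 10 * ((N - (κ + 1)).choose κ : ℝ) * pos (κ + 1) y Q := by
  have hNr : 150 * ((κ : ℝ) + 1) ≤ N := by exact_mod_cast hN1
  have hκ : (0 : ℝ) ≤ κ := Nat.cast_nonneg κ
  have hN0 : (0 : ℝ) < N := by linarith
  have hc0 : 0 < ((κ : ℝ) + 1) / N := by positivity
  have h := pair_count Q κ (κ + 1) (fun W => -(5 / 2) < ∑ x ∈ W, y x ∧ ∑ x ∈ W, y x ≤ -1)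
    (fun S => 0 < ∑ x ∈ S, y x ∧ ∑ x ∈ S, y x ≤ 10)
    (a := 667 / 10000 * (((κ : ℝ) + 1) / N) * ((N - κ).choose (κ + 1) : ℝ))
    (b := 78 / 10 * (((κ : ℝ) + 1) / N) * ((N - (κ + 1)).choose κ : ℝ)) ?_ ?_
  · have h1 : (((powersetCard (κ + 1) Q).filter
        (fun S => 0 < ∑ x ∈ S, y x ∧ ∑ x ∈ S, y x ≤ 10)).card : ℝ) ≤ pos (κ + 1) y Q := by
      unfold pos
      have : ((powersetCard (κ + 1) Q).filter
          (fun S => 0 < ∑ x ∈ S, y x ∧ ∑ x ∈ S, y x ≤ 10)).card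
          ≤ ((powersetCard (κ + 1) Q).filter (fun S => 0 < ∑ x ∈ S, y x)).card := by
        apply card_le_card
        intro V hV
        rw [mem_filter] at hV ⊢
        exact ⟨hV.1, hV.2.1⟩
      exact_mod_cast this
    have h2 := h.trans (mul_le_mul_of_nonneg_left h1 (by positivity))
    have h3 : (((κ : ℝ) + 1) / N) * (667 / 10000 * ((N - κ).choose (κ + 1) : ℝ)
        * (((powersetCard κ Q).filter
          (fun W => -(5 / 2) < ∑ x ∈ W, y x ∧ ∑ x ∈ W, y x ≤ -1)).card : ℝ))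
        ≤ (((κ : ℝ) + 1) / N) * (78 / 10 * ((N - (κ + 1)).choose κ : ℝ) * pos (κ + 1) y Q) := by
      calc _ = 667 / 10000 * (((κ : ℝ) + 1) / N) * ((N - κ).choose (κ + 1) : ℝ)
          * (((powersetCard κ Q).filter
            (fun W => -(5 / 2) < ∑ x ∈ W, y x ∧ ∑ x ∈ W, y x ≤ -1)).card : ℝ) := by ring
        _ ≤ _ := h2
        _ = _ := by ring
    exact le_of_mul_le_mul_left h3 hc0
  · intro W hW hA
    have h1 := near_a hN1 Q y hN hs W hW hA.2
    have h2 := near_b hN1 Q R y hRQ hN hR hR2 hR3 W hW hA.1.le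
    unfold pos at h1
    have h3 : ((powersetCard (κ + 1) (Q \ W)).filter (fun S => 0 < ∑ x ∈ S, y x)).card
        ≤ ((powersetCard (κ + 1) (Q \ W)).filter
            (fun S => 0 < ∑ x ∈ S, y x ∧ ∑ x ∈ S, y x ≤ 10)).card
          + ((powersetCard (κ + 1) (Q \ W)).filter (fun S => 10 < ∑ x ∈ S, y x)).card := by
      refine le_trans (card_le_card ?_) (card_union_le _ _)
      intro V hV
      rw [mem_filter] at hV
      rw [mem_union, mem_filter, mem_filter]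
      rcases le_or_gt (∑ x ∈ V, y x) 10 with h | h
      · exact Or.inl ⟨hV.1, hV.2, h⟩
      · exact Or.inr ⟨hV.1, h⟩
    have h4 : (((powersetCard (κ + 1) (Q \ W)).filter (fun S => 0 < ∑ x ∈ S, y x)).card : ℝ)
        ≤ (((powersetCard (κ + 1) (Q \ W)).filter
            (fun S => 0 < ∑ x ∈ S, y x ∧ ∑ x ∈ S, y x ≤ 10)).card : ℝ)
          + (((powersetCard (κ + 1) (Q \ W)).filter (fun S => 10 < ∑ x ∈ S, y x)).card : ℝ) := by
      exact_mod_cast h3
    linarith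
  · intro S hS hB
    have h1 := near_c hN1 Q R y hRQ hN hs.le hR hR1 hR3 S hS hB.2
    refine le_trans ?_ h1
    have : ((powersetCard κ (Q \ S)).filter
        (fun W => -(5 / 2) < ∑ x ∈ W, y x ∧ ∑ x ∈ W, y x ≤ -1)).card
        ≤ ((powersetCard κ (Q \ S)).filter (fun W => ∑ x ∈ W, y x ≤ -1)).card := by
      apply card_le_card
      intro V hV
      rw [mem_filter] at hV ⊢
      exact ⟨hV.1, hV.2.2⟩
    exact_mod_cast this

/-- few positive sets -/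
theorem key_few {κ N : ℕ} (hκ : 1 ≤ κ) (hN1 : 150 * (κ + 1) ≤ N) (Q : Finset ι) (y : ι → ℝ)
    (hy : ∀ i ∈ Q, y i ≤ 1) (hN : Q.card = N) (hs : -1 < ∑ x ∈ Q, y x)
    (hb : (pos (κ + 1) y Q : ℝ) < 7 / 100 * ((N - 1).choose κ : ℝ)) (hL : 0 < low κ y Q) :
    (low κ y Q : ℝ) * ((N - κ).choose (κ + 1) : ℝ)
      ≤ 132 * (pos (κ + 1) y Q * ((N - (κ + 1)).choose κ : ℝ)) := by
  have hsm := all_small hN1 Q y hy hN hs.le hb
  obtain ⟨ω, hω, h0⟩ : ∃ ω ∈ Q, 0 < y ω := by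
    by_contra hcon
    push Not at hcon
    unfold low at hL
    obtain ⟨W, hW⟩ := card_pos.1 hL
    rw [mem_filter, mem_powersetCard] at hW
    have h1 := sum_sdiff (f := y) hW.1.1
    have h2 : ∑ x ∈ Q \ W, y x ≤ 0 := sum_nonpos (fun x hx => hcon x (mem_sdiff.1 hx).1)
    linarith [hW.2]
  obtain ⟨R, hRQ, hR, hR1, hR2, hR3⟩ := trim hκ hN1 Q y hN hs.le hsm hω h0 hb
  have hfar := part_far hN1 Q y hN hs.le hsm
  have hnear := part_near hN1 Q R y hRQ hN hs hR hR1 hR2 hR3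
  have hsplit : (low κ y Q : ℝ)
      ≤ (((powersetCard κ Q).filter (fun W => ∑ x ∈ W, y x ≤ -(5 / 2))).card : ℝ)
        + (((powersetCard κ Q).filter
          (fun W => -(5 / 2) < ∑ x ∈ W, y x ∧ ∑ x ∈ W, y x ≤ -1)).card : ℝ) := by
    unfold low
    have : ((powersetCard κ Q).filter (fun W => ∑ x ∈ W, y x ≤ -1)).card
        ≤ ((powersetCard κ Q).filter (fun W => ∑ x ∈ W, y x ≤ -(5 / 2))).card
          + ((powersetCard κ Q).filter
            (fun W => -(5 / 2) < ∑ x ∈ W, y x ∧ ∑ x ∈ W, y x ≤ -1)).card := by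
      refine le_trans (card_le_card ?_) (card_union_le _ _)
      intro V hV
      rw [mem_filter] at hV
      rw [mem_union, mem_filter, mem_filter]
      rcases le_or_gt (∑ x ∈ V, y x) (-(5 / 2)) with h | h
      · exact Or.inl ⟨hV.1, h⟩
      · exact Or.inr ⟨hV.1, h, hV.2⟩
    exact_mod_cast this
  obtain ⟨A, hA⟩ : ∃ A : ℝ, A = (((powersetCard κ Q).filter
    (fun W => ∑ x ∈ W, y x ≤ -(5 / 2))).card : ℝ) := ⟨_, rfl⟩
  obtain ⟨B, hB⟩ : ∃ B : ℝ, B = (((powersetCard κ Q).filter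
    (fun W => -(5 / 2) < ∑ x ∈ W, y x ∧ ∑ x ∈ W, y x ≤ -1)).card : ℝ) := ⟨_, rfl⟩
  rw [← hA] at hfar hsplit
  rw [← hB] at hnear hsplit
  have hC : (0 : ℝ) ≤ ((N - κ).choose (κ + 1) : ℝ) := Nat.cast_nonneg _
  have hX : 0 ≤ (pos (κ + 1) y Q : ℝ) * ((N - (κ + 1)).choose κ : ℝ) := by positivity
  have h1 : (low κ y Q : ℝ) * ((N - κ).choose (κ + 1) : ℝ)
      ≤ (A + B) * ((N - κ).choose (κ + 1) : ℝ) := mul_le_mul_of_nonneg_right hsplit hC
  nlinarith

/-- the key inequality -/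
theorem key_lin {κ N : ℕ} (hN1 : 150 * (κ + 1) ≤ N) (Q : Finset ι) (y : ι → ℝ)
    (hy : ∀ i ∈ Q, y i ≤ 1) (hN : Q.card = N) (hs : -1 < ∑ x ∈ Q, y x) :
    (low κ y Q : ℝ) * (N.choose (κ + 1) : ℝ) ≤ 150 * (pos (κ + 1) y Q * (N.choose κ : ℝ)) := by
  have hNr : 150 * ((κ : ℝ) + 1) ≤ N := by exact_mod_cast hN1
  have hκ : (0 : ℝ) ≤ κ := Nat.cast_nonneg κ
  have hN0 : (0 : ℝ) < N := by linarith
  have hC1 : (0 : ℝ) < (N.choose κ : ℝ) := by exact_mod_cast Nat.choose_pos (by omega)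
  have hC2 : (0 : ℝ) < (N.choose (κ + 1) : ℝ) := by exact_mod_cast Nat.choose_pos (by omega)
  have hp0 : (0 : ℝ) ≤ pos (κ + 1) y Q := Nat.cast_nonneg _
  rcases Nat.eq_zero_or_pos (low κ y Q) with hz | hL
  · rw [hz, Nat.cast_zero, zero_mul]
    positivity
  rcases Nat.eq_zero_or_pos κ with h0 | hκ1
  · exfalso
    subst h0
    unfold low at hL
    obtain ⟨W, hW⟩ := card_pos.1 hL
    rw [mem_filter, powersetCard_zero, mem_singleton] at hW
    have := hW.2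
    rw [hW.1, sum_empty] at this
    linarith
  rcases lt_or_ge ((pos (κ + 1) y Q : ℝ)) (7 / 100 * ((N - 1).choose κ : ℝ)) with hb | hb
  · have h1 := key_few hκ1 hN1 Q y hy hN hs hb hL
    have h2 : (N.choose κ : ℝ) * ((N - κ).choose (κ + 1) : ℝ)
        = (N.choose (κ + 1) : ℝ) * ((N - (κ + 1)).choose κ : ℝ) := by
      have e1 := Nat.choose_mul (n := N) (k := κ + (κ + 1)) (s := κ) (by omega)
      have e2 := Nat.choose_mul (n := N) (k := κ + (κ + 1)) (s := κ + 1) (by omega)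
      rw [show κ + (κ + 1) - κ = κ + 1 by omega] at e1
      rw [show κ + (κ + 1) - (κ + 1) = κ by omega] at e2
      have e3 : (κ + (κ + 1)).choose κ = (κ + (κ + 1)).choose (κ + 1) := by
        have := Nat.choose_symm_half κ
        rw [show κ + (κ + 1) = 2 * κ + 1 by ring]
        exact this.symm
      rw [e3] at e1
      have e4 := e1.symm.trans e2
      exact_mod_cast e4
    have hC3 : (0 : ℝ) < ((N - (κ + 1)).choose κ : ℝ) := by
      exact_mod_cast Nat.choose_pos (by omega)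
    have h3 : ((low κ y Q : ℝ) * (N.choose (κ + 1) : ℝ)) * ((N - (κ + 1)).choose κ : ℝ)
        ≤ (150 * (pos (κ + 1) y Q * (N.choose κ : ℝ))) * ((N - (κ + 1)).choose κ : ℝ) := by
      calc ((low κ y Q : ℝ) * (N.choose (κ + 1) : ℝ)) * ((N - (κ + 1)).choose κ : ℝ)
          = ((low κ y Q : ℝ) * ((N - κ).choose (κ + 1) : ℝ)) * (N.choose κ : ℝ) := by
            rw [mul_assoc, ← h2]
            ring
        _ ≤ (132 * (pos (κ + 1) y Q * ((N - (κ + 1)).choose κ : ℝ))) * (N.choose κ : ℝ) :=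
            mul_le_mul_of_nonneg_right h1 hC1.le
        _ ≤ (150 * (pos (κ + 1) y Q * ((N - (κ + 1)).choose κ : ℝ))) * (N.choose κ : ℝ) := by
            apply mul_le_mul_of_nonneg_right _ hC1.le
            have : 0 ≤ (pos (κ + 1) y Q : ℝ) * ((N - (κ + 1)).choose κ : ℝ) := by positivity
            linarith
        _ = _ := by ring
    exact le_of_mul_le_mul_right h3 hC3
  · have h1 := cross_set (κ := κ) (N := N) (by omega) Q y hy hN hs.le
    have h2 := choose_rel N κ (by omega)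
    have hk0 : (0 : ℝ) < (κ : ℝ) + 1 := by positivity
    have hNk : (0 : ℝ) < (N : ℝ) - (κ + 1) := by linarith
    have h3 : ((κ : ℝ) + 1) * (2 / ((N : ℝ) - (κ + 1))) * (N.choose (κ + 1) : ℝ)
        ≤ 29 * pos (κ + 1) y Q := by
      have e : ((κ : ℝ) + 1) * (2 / ((N : ℝ) - (κ + 1))) * (N.choose (κ + 1) : ℝ)
          = 2 * (((N - 1).choose κ : ℝ) * N) / ((N : ℝ) - (κ + 1)) := by
        rw [h2]
        field_simp
      rw [e, div_le_iff₀ hNk]
      have h4 : 149 / 150 * (N : ℝ) ≤ N - (κ + 1) := by linarith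
      have h5 : 29 * (pos (κ + 1) y Q : ℝ) * (149 / 150 * N)
          ≤ 29 * (pos (κ + 1) y Q : ℝ) * (N - (κ + 1)) :=
        mul_le_mul_of_nonneg_left h4 (by positivity)
      have h6 : 7 / 100 * ((N - 1).choose κ : ℝ) * N ≤ (pos (κ + 1) y Q : ℝ) * N :=
        mul_le_mul_of_nonneg_right hb hN0.le
      nlinarith
    have h4 : (low κ y Q : ℝ) / (N.choose κ : ℝ) * (N.choose (κ + 1) : ℝ)
        ≤ 72 * pos (κ + 1) y Q := by
      calc (low κ y Q : ℝ) / (N.choose κ : ℝ) * (N.choose (κ + 1) : ℝ)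
          ≤ (43 * ((pos (κ + 1) y Q : ℝ) / (N.choose (κ + 1) : ℝ))
            + ((κ : ℝ) + 1) * (2 / ((N : ℝ) - (κ + 1)))) * (N.choose (κ + 1) : ℝ) :=
            mul_le_mul_of_nonneg_right h1 hC2.le
        _ = 43 * pos (κ + 1) y Q
            + ((κ : ℝ) + 1) * (2 / ((N : ℝ) - (κ + 1))) * (N.choose (κ + 1) : ℝ) := by
            field_simp
        _ ≤ _ := by linarith
    have h5 : (low κ y Q : ℝ) * (N.choose (κ + 1) : ℝ)
        = ((low κ y Q : ℝ) / (N.choose κ : ℝ) * (N.choose (κ + 1) : ℝ)) * (N.choose κ : ℝ) := by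
      field_simp
    rw [h5]
    calc ((low κ y Q : ℝ) / (N.choose κ : ℝ) * (N.choose (κ + 1) : ℝ)) * (N.choose κ : ℝ)
        ≤ (72 * pos (κ + 1) y Q) * (N.choose κ : ℝ) := mul_le_mul_of_nonneg_right h4 hC1.le
      _ ≤ (150 * pos (κ + 1) y Q) * (N.choose κ : ℝ) := by
          apply mul_le_mul_of_nonneg_right _ hC1.le
          linarith
      _ = _ := by ring

end

end Pool.Agent.KR5
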