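import Pool.Agent.KR5.Fei

/-!
# Positive sets through the largest element
-/

namespace Pool.Agent.KR5

open Finset AK

section
variable {ι : Type*} [DecidableEq ι]

theorem insert_count (P : Finset ι) (y : ι → ℝ) (κ : ℕ) {ω : ι} (hω : ω ∈ P)
    (R : Finset ι) (hR : R ⊆ P.erase ω) :
    ((powersetCard κ R).filter (fun V => -y ω < ∑ x ∈ V, y x)).card ≤ pos (κ + 1) y P := by
  unfold pos
  apply card_le_card_of_injOn (fun V => insert ω V)
  · intro V hV
    rw [mem_coe, mem_filter, mem_powersetCard] at hV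
    have hωV : ω ∉ V := fun h => notMem_erase ω P (hR (hV.1.1 h))
    rw [mem_coe, mem_filter, mem_powersetCard]
    refine ⟨⟨?_, ?_⟩, ?_⟩
    · apply insert_subset hω
      exact hV.1.1.trans (hR.trans (erase_subset _ _))
    · rw [card_insert_of_notMem hωV, hV.1.2]
    · rw [sum_insert hωV]
      linarith [hV.2]
  · intro V hV V' hV' h
    rw [mem_coe, mem_filter, mem_powersetCard] at hV hV'
    have h1 : ω ∉ V := fun h => notMem_erase ω P (hR (hV.1.1 h))
    have h2 : ω ∉ V' := fun h => notMem_erase ω P (hR (hV'.1.1 h))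
    have h3 : (insert ω V).erase ω = (insert ω V').erase ω := by
      have h' : insert ω V = insert ω V' := h
      rw [h']
    rwa [erase_insert h1, erase_insert h2] at h3

theorem max_feige (P : Finset ι) (y : ι → ℝ) (κ : ℕ) {ω : ι} (hω : ω ∈ P)
    (hmax : ∀ x ∈ P, y x ≤ y ω) (h0 : 0 < y ω) (hM : 48 * κ + 1 ≤ P.card) {τ : ℝ}
    (hs : -τ ≤ ∑ x ∈ P.erase ω, y x) (hτ : κ * τ ≤ 11 / 24 * y ω * ((P.card : ℝ) - 1)) :
    7 / 100 * ((P.card - 1).choose κ : ℝ) ≤ pos (κ + 1) y P := by
  have hc : (P.erase ω).card = P.card - 1 := card_erase_of_mem hω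
  have h1 := insert_count P y κ hω (P.erase ω) (Subset.refl _)
  have h2 : (((powersetCard κ (P.erase ω)).filter (fun V => -y ω < ∑ x ∈ V, y x)).card : ℝ)
      ≤ pos (κ + 1) y P := by exact_mod_cast h1
  refine le_trans ?_ h2
  rcases Nat.eq_zero_or_pos κ with rfl | hκ
  · rw [powersetCard_zero, filter_true_of_mem]
    · simp
      norm_num
    · intro V hV
      rw [mem_singleton] at hV
      rw [hV, sum_empty]
      linarith
  · have h3 := feige_gen (P.erase ω) y κ hκ (by rw [hc]; omega) h0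
      (fun x hx => hmax x (mem_of_mem_erase hx)) hs (by
        rw [hc, Nat.cast_sub (by omega)]
        push_cast
        exact hτ)
    rw [hc] at h3
    exact h3

/-- a subset of positive total which is not too small -/
theorem pos_far (P : Finset ι) (y : ι → ℝ) (k : ℕ) (hk : 1 ≤ k) (hM : 48 * k ≤ P.card) {u : ℝ}
    (hu : 0 < u) (hy : ∀ x ∈ P, y x ≤ u) (hs : 13 / 24 * u * P.card ≤ k * ∑ x ∈ P, y x) :
    7 / 100 * (P.card.choose k : ℝ) ≤ pos k y P := by
  have hk0 : (0 : ℝ) < k := by exact_mod_cast hk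
  have hu' : 0 < u / k := by positivity
  have h1 := feige_gen P (fun x => y x - u / k) k hk hM hu (fun x hx => by
      have := hy x hx
      linarith) (τ := 11 / 24 * u * P.card / k) (by
      rw [sum_sub_distrib, sum_const, nsmul_eq_mul]
      have h2 : 13 / 24 * u * P.card / k ≤ ∑ x ∈ P, y x := by
        rw [div_le_iff₀ hk0]
        linarith
      have h3 : (P.card : ℝ) * (u / k) = 13 / 24 * u * P.card / k + 11 / 24 * u * P.card / k := by
        field_simp
        ring
      linarith) (by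
      rw [mul_div_assoc', mul_comm, mul_div_assoc, div_self hk0.ne', mul_one])
  refine h1.trans ?_
  unfold pos
  have : ((powersetCard k P).filter (fun V => -u < ∑ x ∈ V, (y x - u / k))).card
      ≤ ((powersetCard k P).filter (fun V => 0 < ∑ x ∈ V, y x)).card := by
    apply card_le_card
    intro V hV
    rw [mem_filter, mem_powersetCard] at hV ⊢
    refine ⟨hV.1, ?_⟩
    have h2 := hV.2
    rw [sum_sub_distrib, sum_const, nsmul_eq_mul, hV.1.2] at h2
    have : (k : ℝ) * (u / k) = u := by field_simp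
    linarith
  exact_mod_cast this

/-- few positive sets: all values are small -/
theorem all_small {κ N : ℕ} (hN1 : 150 * (κ + 1) ≤ N) (Q : Finset ι) (y : ι → ℝ)
    (hy : ∀ i ∈ Q, y i ≤ 1) (hN : Q.card = N) (hs : -1 ≤ ∑ x ∈ Q, y x)
    (hb : (pos (κ + 1) y Q : ℝ) < 7 / 100 * ((N - 1).choose κ : ℝ)) :
    ∀ x ∈ Q, y x < 12 / 5 * (((κ : ℝ) + 1) / N) := by
  intro x hx
  by_contra hcon
  push Not at hcon
  obtain ⟨ω, hω, hmax⟩ := exists_max_image Q y ⟨x, hx⟩
  have hNr : 150 * ((κ : ℝ) + 1) ≤ N := by exact_mod_cast hN1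
  have hκ : (0 : ℝ) ≤ κ := Nat.cast_nonneg κ
  have hN0 : (0 : ℝ) < N := by linarith
  have hζ : 12 / 5 * (((κ : ℝ) + 1) / N) ≤ y ω := hcon.trans (hmax x hx)
  have hζ2 : 12 / 5 * ((κ : ℝ) + 1) ≤ y ω * N := by
    rw [mul_div_assoc', div_le_iff₀ hN0] at hζ
    exact hζ
  have hζ0 : 0 < y ω := lt_of_lt_of_le (by positivity) hζ
  have hζ1 : y ω ≤ 1 := hy ω hω
  have h3 : y ω * (150 * ((κ : ℝ) + 1)) ≤ y ω * N := mul_le_mul_of_nonneg_left hNr hζ0.le
  have hsum : ∑ x ∈ Q.erase ω, y x = ∑ x ∈ Q, y x - y ω := by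
    rw [← add_sum_erase Q y hω]
    ring
  have h4 := max_feige Q y κ hω hmax hζ0 (by omega) (τ := 1 + y ω) (by rw [hsum]; linarith) (by
    rw [hN]
    nlinarith)
  rw [hN] at h4
  linarith

end

end Pool.Agent.KR5
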