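import Pool.Agent.Helper80.AK.Samp

/-!
# Moments of the sum of a random `j`-subset
-/

namespace Pool.Agent.KR5

open Finset AK

section
variable {ι : Type*} [DecidableEq ι]

theorem sv_add (y : ι → ℝ) (j : ℕ) : ∀ (P : Finset ι) (F G : ℝ → ℝ),
    sv y j P (fun s => F s + G s) = sv y j P F + sv y j P G := by
  induction j with
  | zero => intro P F G; rfl
  | succ j ih =>
    intro P F G
    rw [sv_succ, sv_succ, sv_succ, ← add_div, ← sum_add_distrib]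
    congr 1
    apply sum_congr rfl
    intro x _
    exact ih (P.erase x) (fun s => F (s + y x)) (fun s => G (s + y x))

theorem sv_mul (y : ι → ℝ) (j : ℕ) : ∀ (P : Finset ι) (F : ℝ → ℝ) (c : ℝ),
    sv y j P (fun s => c * F s) = c * sv y j P F := by
  induction j with
  | zero => intro P F c; rfl
  | succ j ih =>
    intro P F c
    rw [sv_succ, sv_succ, mul_div_assoc', mul_sum]
    congr 1
    apply sum_congr rfl
    intro x _
    exact ih (P.erase x) (fun s => F (s + y x)) c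

theorem sv_const (y : ι → ℝ) (j : ℕ) : ∀ (P : Finset ι) (c : ℝ), j ≤ P.card →
    sv y j P (fun _ => c) = c := by
  induction j with
  | zero => intro P c _; rfl
  | succ j ih =>
    intro P c h
    rw [sv_succ]
    have h1 : ∀ x ∈ P, sv y j (P.erase x) (fun _ => c) = c := by
      intro x hx
      apply ih
      rw [card_erase_of_mem hx]
      omega
    rw [sum_congr rfl h1, sum_const, nsmul_eq_mul]
    have : (0 : ℝ) < P.card := by
      have : 0 < P.card := by omega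
      exact_mod_cast this
    field_simp

/-- the ratios of falling factorials -/
noncomputable def r1 (j M : ℝ) : ℝ := j / M
noncomputable def r2 (j M : ℝ) : ℝ := j * (j - 1) / (M * (M - 1))
noncomputable def r3 (j M : ℝ) : ℝ := j * (j - 1) * (j - 2) / (M * (M - 1) * (M - 2))
noncomputable def r4 (j M : ℝ) : ℝ :=
  j * (j - 1) * (j - 2) * (j - 3) / (M * (M - 1) * (M - 2) * (M - 3))

theorem rec1 (j M : ℝ) (h : 4 < M) : M * r1 (j + 1) M = (M - 1) * r1 j (M - 1) + 1 := by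
  unfold r1
  have h0 : M ≠ 0 := by linarith
  have h1 : M - 1 ≠ 0 := by linarith
  field_simp

theorem rec2 (j M : ℝ) (h : 4 < M) :
    M * r2 (j + 1) M = (M - 2) * r2 j (M - 1) + 2 * r1 j (M - 1) := by
  unfold r1 r2
  have h0 : M ≠ 0 := by linarith
  have h1 : M - 1 ≠ 0 := by linarith
  have h2 : M - 1 - 1 ≠ 0 := by linarith
  field_simp
  ring

theorem rec3 (j M : ℝ) (h : 4 < M) :
    M * r3 (j + 1) M = (M - 3) * r3 j (M - 1) + 3 * r2 j (M - 1) := by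
  unfold r2 r3
  have h0 : M ≠ 0 := by linarith
  have h1 : M - 1 ≠ 0 := by linarith
  have h2 : M - 1 - 1 ≠ 0 := by linarith
  have h3 : M - 1 - 2 ≠ 0 := by linarith
  have h4 : M - 2 ≠ 0 := by linarith
  field_simp
  ring

theorem rec4 (j M : ℝ) (h : 4 < M) :
    M * r4 (j + 1) M = (M - 4) * r4 j (M - 1) + 4 * r3 j (M - 1) := by
  unfold r3 r4
  have h0 : M ≠ 0 := by linarith
  have h1 : M - 1 ≠ 0 := by linarith
  have h2 : M - 1 - 1 ≠ 0 := by linarith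
  have h3 : M - 1 - 2 ≠ 0 := by linarith
  have h4 : M - 2 ≠ 0 := by linarith
  have h5 : M - 3 ≠ 0 := by linarith
  have h6 : M - 1 - 3 ≠ 0 := by linarith
  field_simp
  ring

noncomputable def m1 (q1 p1 : ℝ) : ℝ := q1 * p1
noncomputable def m2 (q1 q2 p1 p2 : ℝ) : ℝ := q1 * p2 + q2 * (p1 ^ 2 - p2)
noncomputable def m3 (q1 q2 q3 p1 p2 p3 : ℝ) : ℝ :=
  q1 * p3 + 3 * q2 * (p1 * p2 - p3) + q3 * (p1 ^ 3 - 3 * p1 * p2 + 2 * p3)
noncomputable def m4 (q1 q2 q3 q4 p1 p2 p3 p4 : ℝ) : ℝ :=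
  q1 * p4 + q2 * (4 * (p1 * p3 - p4) + 3 * (p2 ^ 2 - p4))
    + 6 * q3 * (p1 ^ 2 * p2 - 2 * p1 * p3 - p2 ^ 2 + 2 * p4)
    + q4 * (p1 ^ 4 - 6 * p1 ^ 2 * p2 + 8 * p1 * p3 + 3 * p2 ^ 2 - 6 * p4)

theorem sum_poly (P : Finset ι) (y : ι → ℝ) (a0 a1 a2 a3 a4 : ℝ) :
    ∑ x ∈ P, (a0 + a1 * y x + a2 * y x ^ 2 + a3 * y x ^ 3 + a4 * y x ^ 4)
      = P.card * a0 + a1 * ∑ x ∈ P, y x + a2 * ∑ x ∈ P, y x ^ 2 + a3 * ∑ x ∈ P, y x ^ 3
        + a4 * ∑ x ∈ P, y x ^ 4 := by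
  rw [sum_add_distrib, sum_add_distrib, sum_add_distrib, sum_add_distrib, sum_const,
    nsmul_eq_mul, mul_sum, mul_sum, mul_sum, mul_sum]

/-- the four moments -/
theorem moments (y : ι → ℝ) (j : ℕ) : ∀ (P : Finset ι), j + 4 ≤ P.card →
    (sv y j P (fun s => s) = m1 (r1 j P.card) (∑ x ∈ P, y x)) ∧
    (sv y j P (fun s => s ^ 2) = m2 (r1 j P.card) (r2 j P.card) (∑ x ∈ P, y x)
      (∑ x ∈ P, y x ^ 2)) ∧
    (sv y j P (fun s => s ^ 3) = m3 (r1 j P.card) (r2 j P.card) (r3 j P.card) (∑ x ∈ P, y x)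
      (∑ x ∈ P, y x ^ 2) (∑ x ∈ P, y x ^ 3)) ∧
    (sv y j P (fun s => s ^ 4) = m4 (r1 j P.card) (r2 j P.card) (r3 j P.card) (r4 j P.card)
      (∑ x ∈ P, y x) (∑ x ∈ P, y x ^ 2) (∑ x ∈ P, y x ^ 3) (∑ x ∈ P, y x ^ 4)) := by
  induction j with
  | zero =>
    intro P _
    simp only [sv_zero]
    refine ⟨?_, ?_, ?_, ?_⟩
    · simp [m1, r1]
    · simp [m2, r1, r2]
    · simp [m3, r1, r2, r3]
    · simp [m4, r1, r2, r3, r4]
  | succ j ih =>
    intro P hP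
    obtain ⟨M, hM⟩ : ∃ M : ℝ, M = P.card := ⟨_, rfl⟩
    have hM4 : 4 < M := by
      rw [hM]
      have : 4 < P.card := by omega
      exact_mod_cast this
    obtain ⟨p1, h1⟩ : ∃ p1, p1 = ∑ x ∈ P, y x := ⟨_, rfl⟩
    obtain ⟨p2, h2⟩ : ∃ p2, p2 = ∑ x ∈ P, y x ^ 2 := ⟨_, rfl⟩
    obtain ⟨p3, h3⟩ : ∃ p3, p3 = ∑ x ∈ P, y x ^ 3 := ⟨_, rfl⟩
    obtain ⟨p4, h4⟩ : ∃ p4, p4 = ∑ x ∈ P, y x ^ 4 := ⟨_, rfl⟩
    obtain ⟨q1, hq1⟩ : ∃ q1, q1 = r1 j (M - 1) := ⟨_, rfl⟩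
    obtain ⟨q2, hq2⟩ : ∃ q2, q2 = r2 j (M - 1) := ⟨_, rfl⟩
    obtain ⟨q3, hq3⟩ : ∃ q3, q3 = r3 j (M - 1) := ⟨_, rfl⟩
    obtain ⟨q4, hq4⟩ : ∃ q4, q4 = r4 j (M - 1) := ⟨_, rfl⟩
    have e1 := rec1 j M hM4
    have e2 := rec2 j M hM4
    have e3 := rec3 j M hM4
    have e4 := rec4 j M hM4
    rw [← hq1] at e1 e2
    rw [← hq2] at e2 e3
    rw [← hq3] at e3 e4
    rw [← hq4] at e4
    have hs : ∀ x ∈ P,
        (sv y j (P.erase x) (fun s => s) = m1 q1 (p1 - y x)) ∧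
        (sv y j (P.erase x) (fun s => s ^ 2) = m2 q1 q2 (p1 - y x) (p2 - y x ^ 2)) ∧
        (sv y j (P.erase x) (fun s => s ^ 3) = m3 q1 q2 q3 (p1 - y x) (p2 - y x ^ 2)
          (p3 - y x ^ 3)) ∧
        (sv y j (P.erase x) (fun s => s ^ 4) = m4 q1 q2 q3 q4 (p1 - y x) (p2 - y x ^ 2)
          (p3 - y x ^ 3) (p4 - y x ^ 4)) := by
      intro x hx
      have hc : ((P.erase x).card : ℝ) = M - 1 := by
        rw [card_erase_of_mem hx, Nat.cast_sub (by omega), ← hM]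
        norm_num
      have hh := ih (P.erase x) (by rw [card_erase_of_mem hx]; omega)
      rw [hc, ← hq1, ← hq2, ← hq3, ← hq4] at hh
      have f1 : ∑ z ∈ P.erase x, y z = p1 - y x := by
        rw [h1, ← add_sum_erase P y hx]; ring
      have f2 : ∑ z ∈ P.erase x, y z ^ 2 = p2 - y x ^ 2 := by
        rw [h2, ← add_sum_erase P (fun z => y z ^ 2) hx]; ring
      have f3 : ∑ z ∈ P.erase x, y z ^ 3 = p3 - y x ^ 3 := by
        rw [h3, ← add_sum_erase P (fun z => y z ^ 3) hx]; ring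
      have f4 : ∑ z ∈ P.erase x, y z ^ 4 = p4 - y x ^ 4 := by
        rw [h4, ← add_sum_erase P (fun z => y z ^ 4) hx]; ring
      rw [f1, f2, f3, f4] at hh
      exact hh
    have hk : ∀ x ∈ P, j ≤ (P.erase x).card := by
      intro x hx
      rw [card_erase_of_mem hx]
      omega
    have hcast : (((j + 1 : ℕ) : ℝ)) = (j : ℝ) + 1 := by push_cast; ring
    have hM0 : M ≠ 0 := by linarith
    rw [← h1, ← h2, ← h3, ← h4, hcast, ← hM]
    refine ⟨?_, ?_, ?_, ?_⟩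
    · rw [sv_succ, ← hM, div_eq_iff hM0]
      have hx : ∀ x ∈ P, sv y j (P.erase x) (fun s => s + y x)
          = (p1 * q1) + (1 - q1) * y x + 0 * y x ^ 2 + 0 * y x ^ 3 + 0 * y x ^ 4 := by
        intro x hx
        rw [sv_add y j _ (fun s => s) (fun _ => y x), sv_const y j _ _ (hk x hx), (hs x hx).1]
        unfold m1
        ring
      rw [sum_congr rfl hx, sum_poly, ← h1, ← h2, ← h3, ← h4, ← hM]
      unfold m1
      linear_combination (-p1) * e1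
    · rw [sv_succ, ← hM, div_eq_iff hM0]
      have hx : ∀ x ∈ P, sv y j (P.erase x) (fun s => (s + y x) ^ 2)
          = (0 - p2 * q2 + p2 * q1 + p1 ^ 2 * q2) + (0 - 2 * p1 * q2 + 2 * p1 * q1) * y x
            + (1 + 2 * q2 - 3 * q1) * y x ^ 2 + 0 * y x ^ 3 + 0 * y x ^ 4 := by
        intro x hx
        have e : (fun s : ℝ => (s + y x) ^ 2)
            = (fun s => s ^ 2 + ((2 * y x) * s + y x ^ 2)) := by
          funext s
          ring
        rw [e, sv_add y j _ (fun s => s ^ 2) (fun s => (2 * y x) * s + y x ^ 2),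
          sv_add y j _ (fun s => (2 * y x) * s) (fun _ => y x ^ 2),
          sv_mul y j _ (fun s => s), sv_const y j _ _ (hk x hx), (hs x hx).1, (hs x hx).2.1]
        unfold m1 m2
        ring
      rw [sum_congr rfl hx, sum_poly, ← h1, ← h2, ← h3, ← h4, ← hM]
      unfold m2
      linear_combination (-p2) * e1 - (p1 ^ 2 - p2) * e2
    · rw [sv_succ, ← hM, div_eq_iff hM0]
      have hx : ∀ x ∈ P, sv y j (P.erase x) (fun s => (s + y x) ^ 3)
          = (2 * p3 * q3 - 3 * p3 * q2 + p3 * q1 - 3 * p1 * p2 * q3 + 3 * p1 * p2 * q2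
              + p1 ^ 3 * q3)
            + (3 * p2 * q3 - 6 * p2 * q2 + 3 * p2 * q1 - 3 * p1 ^ 2 * q3 + 3 * p1 ^ 2 * q2) * y x
            + (6 * p1 * q3 - 9 * p1 * q2 + 3 * p1 * q1) * y x ^ 2
            + (1 - 6 * q3 + 12 * q2 - 7 * q1) * y x ^ 3 + 0 * y x ^ 4 := by
        intro x hx
        have e : (fun s : ℝ => (s + y x) ^ 3)
            = (fun s => s ^ 3 + ((3 * y x) * s ^ 2 + ((3 * y x ^ 2) * s + y x ^ 3))) := by
          funext s
          ring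
        rw [e, sv_add y j _ (fun s => s ^ 3) (fun s => (3 * y x) * s ^ 2
            + ((3 * y x ^ 2) * s + y x ^ 3)),
          sv_add y j _ (fun s => (3 * y x) * s ^ 2) (fun s => (3 * y x ^ 2) * s + y x ^ 3),
          sv_add y j _ (fun s => (3 * y x ^ 2) * s) (fun _ => y x ^ 3),
          sv_mul y j _ (fun s => s ^ 2), sv_mul y j _ (fun s => s),
          sv_const y j _ _ (hk x hx), (hs x hx).1, (hs x hx).2.1, (hs x hx).2.2.1]
        unfold m1 m2 m3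
        ring
      rw [sum_congr rfl hx, sum_poly, ← h1, ← h2, ← h3, ← h4, ← hM]
      unfold m3
      linear_combination (-p3) * e1 - 3 * (p1 * p2 - p3) * e2
        - (p1 ^ 3 - 3 * p1 * p2 + 2 * p3) * e3
    · rw [sv_succ, ← hM, div_eq_iff hM0]
      have hx : ∀ x ∈ P, sv y j (P.erase x) (fun s => (s + y x) ^ 4)
          = (0 - 6 * p4 * q4 + 12 * p4 * q3 - 7 * p4 * q2 + p4 * q1 + 3 * p2 ^ 2 * q4
              - 6 * p2 ^ 2 * q3 + 3 * p2 ^ 2 * q2 + 8 * p1 * p3 * q4 - 12 * p1 * p3 * q3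
              + 4 * p1 * p3 * q2 - 6 * p1 ^ 2 * p2 * q4 + 6 * p1 ^ 2 * p2 * q3 + p1 ^ 4 * q4)
            + (0 - 8 * p3 * q4 + 20 * p3 * q3 - 16 * p3 * q2 + 4 * p3 * q1 + 12 * p1 * p2 * q4
              - 24 * p1 * p2 * q3 + 12 * p1 * p2 * q2 - 4 * p1 ^ 3 * q4 + 4 * p1 ^ 3 * q3) * y x
            + (0 - 12 * p2 * q4 + 30 * p2 * q3 - 24 * p2 * q2 + 6 * p2 * q1 + 12 * p1 ^ 2 * q4
              - 18 * p1 ^ 2 * q3 + 6 * p1 ^ 2 * q2) * y x ^ 2
            + (0 - 24 * p1 * q4 + 48 * p1 * q3 - 28 * p1 * q2 + 4 * p1 * q1) * y x ^ 3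
            + (1 + 24 * q4 - 60 * q3 + 50 * q2 - 15 * q1) * y x ^ 4 := by
        intro x hx
        have e : (fun s : ℝ => (s + y x) ^ 4)
            = (fun s => s ^ 4 + ((4 * y x) * s ^ 3 + ((6 * y x ^ 2) * s ^ 2
              + ((4 * y x ^ 3) * s + y x ^ 4)))) := by
          funext s
          ring
        rw [e, sv_add y j _ (fun s => s ^ 4) (fun s => (4 * y x) * s ^ 3 + ((6 * y x ^ 2) * s ^ 2
              + ((4 * y x ^ 3) * s + y x ^ 4))),
          sv_add y j _ (fun s => (4 * y x) * s ^ 3) (fun s => (6 * y x ^ 2) * s ^ 2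
              + ((4 * y x ^ 3) * s + y x ^ 4)),
          sv_add y j _ (fun s => (6 * y x ^ 2) * s ^ 2) (fun s => (4 * y x ^ 3) * s + y x ^ 4),
          sv_add y j _ (fun s => (4 * y x ^ 3) * s) (fun _ => y x ^ 4),
          sv_mul y j _ (fun s => s ^ 3), sv_mul y j _ (fun s => s ^ 2), sv_mul y j _ (fun s => s),
          sv_const y j _ _ (hk x hx), (hs x hx).1, (hs x hx).2.1, (hs x hx).2.2.1,
          (hs x hx).2.2.2]
        unfold m1 m2 m3 m4
        ring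
      rw [sum_congr rfl hx, sum_poly, ← h1, ← h2, ← h3, ← h4, ← hM]
      unfold m4
      linear_combination (-p4) * e1 - (4 * (p1 * p3 - p4) + 3 * (p2 ^ 2 - p4)) * e2
        - 6 * (p1 ^ 2 * p2 - 2 * p1 * p3 - p2 ^ 2 + 2 * p4) * e3
        - (p1 ^ 4 - 6 * p1 ^ 2 * p2 + 8 * p1 * p3 + 3 * p2 ^ 2 - 6 * p4) * e4

end

end Pool.Agent.KR5
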