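import Pool.Agent.KR5.TrimTwo
import Pool.Agent.KR5.Cheb

/-!
# The three estimates for disjoint pairs
-/

namespace Pool.Agent.KR5

open Finset AK

section
variable {ι : Type*} [DecidableEq ι]

/-- positive sets avoiding a very negative set -/
theorem part_far {κ N : ℕ} (hN1 : 150 * (κ + 1) ≤ N) (Q : Finset ι) (y : ι → ℝ)
    (hN : Q.card = N) (hs : -1 ≤ ∑ x ∈ Q, y x)
    (hy : ∀ x ∈ Q, y x < 12 / 5 * (((κ : ℝ) + 1) / N)) :
    7 / 100 * ((N - κ).choose (κ + 1) : ℝ)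
        * (((powersetCard κ Q).filter (fun W => ∑ x ∈ W, y x ≤ -(5 / 2))).card : ℝ)
      ≤ ((N - (κ + 1)).choose κ : ℝ) * pos (κ + 1) y Q := by
  have hNr : 150 * ((κ : ℝ) + 1) ≤ N := by exact_mod_cast hN1
  have hκ : (0 : ℝ) ≤ κ := Nat.cast_nonneg κ
  have hN0 : (0 : ℝ) < N := by linarith
  unfold pos
  apply pair_count
  · intro W hW hA
    rw [mem_powersetCard] at hW
    have hc : (Q \ W).card = N - κ := by rw [card_sdiff_of_subset hW.1, hN, hW.2]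
    have hcr : ((Q \ W).card : ℝ) ≤ N := by
      rw [hc]
      exact_mod_cast Nat.sub_le _ _
    have h1 := pos_far (Q \ W) y (κ + 1) (by omega) (by rw [hc]; omega)
      (u := 12 / 5 * (((κ : ℝ) + 1) / N)) (by positivity)
      (fun x hx => (hy x (mem_sdiff.1 hx).1).le) (by
        have h2 := sum_sdiff (f := y) hW.1
        have h3 : 3 / 2 ≤ ∑ x ∈ Q \ W, y x := by linarith
        have h4 : 13 / 24 * (12 / 5 * (((κ : ℝ) + 1) / N)) * (Q \ W).card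
            ≤ 13 / 24 * (12 / 5 * (((κ : ℝ) + 1) / N)) * N :=
          mul_le_mul_of_nonneg_left hcr (by positivity)
        have h5 : 13 / 24 * (12 / 5 * (((κ : ℝ) + 1) / N)) * N = 13 / 10 * ((κ : ℝ) + 1) := by
          field_simp
          norm_num
        push_cast
        nlinarith)
    rw [hc] at h1
    exact h1
  · intro S hS _
    rw [mem_powersetCard] at hS
    have hc : (Q \ S).card = N - (κ + 1) := by rw [card_sdiff_of_subset hS.1, hN, hS.2]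
    have h1 := card_filter_le (powersetCard κ (Q \ S)) (fun W => ∑ x ∈ W, y x ≤ -(5 / 2))
    rw [card_powersetCard, hc] at h1
    exact_mod_cast h1

theorem near_a {κ N : ℕ} (hN1 : 150 * (κ + 1) ≤ N) (Q : Finset ι) (y : ι → ℝ)
    (hN : Q.card = N) (hs : -1 < ∑ x ∈ Q, y x) (W : Finset ι) (hW : W ∈ powersetCard κ Q)
    (hW1 : ∑ x ∈ W, y x ≤ -1) :
    7 / 100 * (((κ : ℝ) + 1) / N) * ((N - κ).choose (κ + 1) : ℝ) ≤ pos (κ + 1) y (Q \ W) := by
  have hNr : 150 * ((κ : ℝ) + 1) ≤ N := by exact_mod_cast hN1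
  have hκ : (0 : ℝ) ≤ κ := Nat.cast_nonneg κ
  have hN0 : (0 : ℝ) < N := by linarith
  rw [mem_powersetCard] at hW
  have hc : (Q \ W).card = N - κ := by rw [card_sdiff_of_subset hW.1, hN, hW.2]
  have hcr : ((Q \ W).card : ℝ) = N - κ := by
    rw [hc, Nat.cast_sub (by omega)]
  have hne : (Q \ W).Nonempty := card_pos.1 (by omega)
  obtain ⟨ω, hω, hmax⟩ := exists_max_image (Q \ W) y hne
  have hsum : 0 < ∑ x ∈ Q \ W, y x := by
    have h2 := sum_sdiff (f := y) hW.1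
    linarith
  have h0 : 0 < y ω := by
    by_contra hcon
    push Not at hcon
    have : ∑ x ∈ Q \ W, y x ≤ 0 := sum_nonpos (fun x hx => (hmax x hx).trans hcon)
    linarith
  have he : ∑ x ∈ (Q \ W).erase ω, y x = ∑ x ∈ Q \ W, y x - y ω := by
    rw [← add_sum_erase (Q \ W) y hω]
    ring
  have h1 := max_feige (Q \ W) y κ hω hmax h0 (by rw [hc]; omega) (τ := y ω)
    (by rw [he]; linarith) (by
      rw [hcr]
      have : (κ : ℝ) ≤ 11 / 24 * (N - κ - 1) := by linarith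
      calc (κ : ℝ) * y ω ≤ 11 / 24 * (N - κ - 1) * y ω := mul_le_mul_of_nonneg_right this h0.le
        _ = _ := by ring)
  refine le_trans ?_ h1
  have h2 := choose_rel (Q \ W).card κ (by omega)
  rw [hcr] at h2
  rw [hc] at h2 ⊢
  have hC : (0 : ℝ) ≤ ((N - κ - 1).choose κ : ℝ) := Nat.cast_nonneg _
  have h3 : ((N - κ).choose (κ + 1) : ℝ) * ((κ : ℝ) + 1) ≤ ((N - κ - 1).choose κ : ℝ) * N := by
    rw [← h2]
    apply mul_le_mul_of_nonneg_left _ hC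
    linarith
  have h4 : ((κ : ℝ) + 1) / N * ((N - κ).choose (κ + 1) : ℝ) ≤ ((N - κ - 1).choose κ : ℝ) := by
    rw [div_mul_eq_mul_div, div_le_iff₀ hN0]
    linarith
  linarith

/-- the truncated values -/
noncomputable def zt (R : Finset ι) (y : ι → ℝ) : ι → ℝ := fun x => if x ∈ R then y x else 0

/-- the cut off part -/
noncomputable def mt (R : Finset ι) (y : ι → ℝ) : ι → ℝ := fun x => if x ∈ R then 0 else -y x

theorem zt_sub_mt (R : Finset ι) (y : ι → ℝ) (x : ι) : zt R y x - mt R y x = y x := by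
  unfold zt mt
  split_ifs <;> ring

theorem zt_sum {Q R : Finset ι} (h : R ⊆ Q) (y : ι → ℝ) : ∑ x ∈ Q, zt R y x = ∑ x ∈ R, y x := by
  unfold zt
  rw [← sum_filter, filter_mem_eq_inter, inter_eq_right.2 h]

theorem zt_sq {Q R : Finset ι} (h : R ⊆ Q) (y : ι → ℝ) :
    ∑ x ∈ Q, zt R y x ^ 2 = ∑ x ∈ R, y x ^ 2 := by
  rw [← zt_sum h (fun x => y x ^ 2)]
  apply sum_congr rfl
  intro x _
  unfold zt
  split_ifs
  · rfl
  · norm_num

theorem mt_sum {Q R : Finset ι} (y : ι → ℝ) :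
    ∑ x ∈ Q, mt R y x = -∑ x ∈ Q \ R, y x := by
  unfold mt
  rw [sdiff_eq_filter, sum_filter, ← sum_neg_distrib]
  apply sum_congr rfl
  intro x _
  split_ifs with h1 h2 h2 <;> simp_all

theorem mt_nonneg {Q R : Finset ι} (y : ι → ℝ) (h : ∀ x ∈ Q \ R, y x ≤ 0) :
    ∀ x ∈ Q, 0 ≤ mt R y x := by
  intro x hx
  unfold mt
  split_ifs with h1
  · exact le_rfl
  · have := h x (mem_sdiff.2 ⟨hx, h1⟩)
    linarith

theorem near_b {κ N : ℕ} (hN1 : 150 * (κ + 1) ≤ N) (Q R : Finset ι) (y : ι → ℝ)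
    (hRQ : R ⊆ Q) (hN : Q.card = N) (hR : ∀ x ∈ Q \ R, y x ≤ 0)
    (hR2 : ∑ x ∈ R, y x ≤ 101 / 50) (hR3 : ∑ x ∈ R, y x ^ 2 ≤ 47 * (((κ : ℝ) + 1) / N))
    (W : Finset ι) (hW : W ∈ powersetCard κ Q) (hW1 : -(5 / 2) ≤ ∑ x ∈ W, y x) :
    (((powersetCard (κ + 1) (Q \ W)).filter (fun S => 10 < ∑ x ∈ S, y x)).card : ℝ)
      ≤ 33 / 10000 * (((κ : ℝ) + 1) / N) * ((N - κ).choose (κ + 1) : ℝ) := by
  have hNr : 150 * ((κ : ℝ) + 1) ≤ N := by exact_mod_cast hN1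
  have hκ : (0 : ℝ) ≤ κ := Nat.cast_nonneg κ
  have hN0 : (0 : ℝ) < N := by linarith
  rw [mem_powersetCard] at hW
  have hc : (Q \ W).card = N - κ := by rw [card_sdiff_of_subset hW.1, hN, hW.2]
  have hcr : ((Q \ W).card : ℝ) = N - κ := by
    rw [hc, Nat.cast_sub (by omega)]
  have hP0 : (0 : ℝ) < (Q \ W).card := by rw [hcr]; linarith
  have hm := mt_nonneg y hR
  have hyz : ∀ V ⊆ Q, ∑ x ∈ V, y x ≤ ∑ x ∈ V, zt R y x := by
    intro V hV
    apply sum_le_sum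
    intro x hx
    have h1 := zt_sub_mt R y x
    have h2 := hm x (hV hx)
    linarith
  have hs1 : ∑ x ∈ Q \ W, zt R y x ≤ 113 / 25 := by
    have h1 := sum_sdiff (f := zt R y) hW.1
    rw [zt_sum hRQ] at h1
    have h2 := hyz W hW.1
    linarith
  have hs2 : ∑ x ∈ Q \ W, zt R y x ^ 2 ≤ 47 * (((κ : ℝ) + 1) / N) := by
    refine le_trans ?_ hR3
    rw [← zt_sq hRQ]
    apply sum_le_sum_of_subset_of_nonneg sdiff_subset
    intro x _ _
    positivity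
  have hratio : ((κ + 1 : ℕ) : ℝ) / (Q \ W).card ≤ 1 / 149 := by
    rw [div_le_div_iff₀ hP0 (by norm_num), hcr]
    push_cast
    linarith
  have hratio0 : 0 ≤ ((κ + 1 : ℕ) : ℝ) / (Q \ W).card := by positivity
  have h1 := cheb_up (Q \ W) (zt R y) (κ + 1) (by rw [hc]; omega) (L := 99 / 10) (θ := 10)
    (by norm_num) (by
      have h2 : ((κ + 1 : ℕ) : ℝ) / (Q \ W).card * ∑ x ∈ Q \ W, zt R y x
          ≤ ((κ + 1 : ℕ) : ℝ) / (Q \ W).card * (113 / 25) :=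
        mul_le_mul_of_nonneg_left hs1 hratio0
      have h3 : ((κ + 1 : ℕ) : ℝ) / (Q \ W).card * (113 / 25) ≤ 1 / 149 * (113 / 25) :=
        mul_le_mul_of_nonneg_right hratio (by norm_num)
      linarith)
  have h2 : (((powersetCard (κ + 1) (Q \ W)).filter (fun S => 10 < ∑ x ∈ S, y x)).card : ℝ)
      ≤ (((powersetCard (κ + 1) (Q \ W)).filter (fun S => 10 ≤ ∑ x ∈ S, zt R y x)).card : ℝ) := by
    have : ((powersetCard (κ + 1) (Q \ W)).filter (fun S => 10 < ∑ x ∈ S, y x)).card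
        ≤ ((powersetCard (κ + 1) (Q \ W)).filter (fun S => 10 ≤ ∑ x ∈ S, zt R y x)).card := by
      apply card_le_card
      intro V hV
      rw [mem_filter, mem_powersetCard] at hV ⊢
      refine ⟨hV.1, ?_⟩
      have := hyz V (hV.1.1.trans sdiff_subset)
      linarith [hV.2]
    exact_mod_cast this
  rw [hc] at h1
  have hC : (0 : ℝ) ≤ ((N - κ).choose (κ + 1) : ℝ) := Nat.cast_nonneg _
  have h3 : ((κ + 1 : ℕ) : ℝ) / (N - κ : ℕ) * ∑ x ∈ Q \ W, zt R y x ^ 2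
      ≤ 1 / 149 * (47 * (((κ : ℝ) + 1) / N)) := by
    rw [← hc]
    apply mul_le_mul hratio hs2 (sum_nonneg (fun x _ => sq_nonneg _)) (by norm_num)
  have h4 : ((N - κ).choose (κ + 1) : ℝ) * (((κ + 1 : ℕ) : ℝ) / (N - κ : ℕ)
        * ∑ x ∈ Q \ W, zt R y x ^ 2)
      ≤ ((N - κ).choose (κ + 1) : ℝ) * (1 / 149 * (47 * (((κ : ℝ) + 1) / N))) :=
    mul_le_mul_of_nonneg_left h3 hC
  have h5 : 0 ≤ (((κ : ℝ) + 1) / N) * ((N - κ).choose (κ + 1) : ℝ) := by positivity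
  nlinarith

theorem near_c {κ N : ℕ} (hN1 : 150 * (κ + 1) ≤ N) (Q R : Finset ι) (y : ι → ℝ)
    (hRQ : R ⊆ Q) (hN : Q.card = N) (hs : -1 ≤ ∑ x ∈ Q, y x) (hR : ∀ x ∈ Q \ R, y x ≤ 0)
    (hR1 : -∑ x ∈ Q \ R, y x ≤ 151 / 50)
    (hR3 : ∑ x ∈ R, y x ^ 2 ≤ 47 * (((κ : ℝ) + 1) / N))
    (S : Finset ι) (hS : S ∈ powersetCard (κ + 1) Q) (hS1 : ∑ x ∈ S, y x ≤ 10) :
    (((powersetCard κ (Q \ S)).filter (fun W => ∑ x ∈ W, y x ≤ -1)).card : ℝ)
      ≤ 78 / 10 * (((κ : ℝ) + 1) / N) * ((N - (κ + 1)).choose κ : ℝ) := by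
  have hNr : 150 * ((κ : ℝ) + 1) ≤ N := by exact_mod_cast hN1
  have hκ : (0 : ℝ) ≤ κ := Nat.cast_nonneg κ
  have hN0 : (0 : ℝ) < N := by linarith
  rw [mem_powersetCard] at hS
  have hc : (Q \ S).card = N - (κ + 1) := by rw [card_sdiff_of_subset hS.1, hN, hS.2]
  have hcr : ((Q \ S).card : ℝ) = N - (κ + 1) := by
    rw [hc, Nat.cast_sub (by omega)]
    push_cast
    ring
  have hP0 : (0 : ℝ) < (Q \ S).card := by rw [hcr]; linarith
  have hm := mt_nonneg y hR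
  have hm' : ∀ x ∈ Q \ S, 0 ≤ mt R y x := fun x hx => hm x (mem_sdiff.1 hx).1
  have hsz : ∀ V : Finset ι, ∑ x ∈ V, y x = ∑ x ∈ V, zt R y x - ∑ x ∈ V, mt R y x := by
    intro V
    rw [← sum_sub_distrib]
    exact sum_congr rfl (fun x _ => (zt_sub_mt R y x).symm)
  obtain ⟨c, hcd⟩ : ∃ c : ℝ, c = ((κ : ℝ) + 1) / N := ⟨_, rfl⟩
  have hc0 : 0 < c := by rw [hcd]; positivity
  have hcN : c * N = (κ : ℝ) + 1 := by rw [hcd]; field_simp
  rw [← hcd] at hR3 ⊢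
  have hms : ∑ x ∈ Q \ S, mt R y x ≤ 151 / 50 := by
    refine le_trans ?_ hR1
    rw [← mt_sum]
    exact sum_le_sum_of_subset_of_nonneg sdiff_subset (fun x hx _ => hm x hx)
  have hms0 : 0 ≤ ∑ x ∈ Q \ S, mt R y x := sum_nonneg hm'
  have hzs : -11 ≤ ∑ x ∈ Q \ S, zt R y x := by
    have h1 := hsz (Q \ S)
    have h2 := sum_sdiff (f := y) hS.1
    linarith
  have hs2 : ∑ x ∈ Q \ S, zt R y x ^ 2 ≤ 47 * c := by
    refine le_trans ?_ hR3
    rw [← zt_sq hRQ]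
    apply sum_le_sum_of_subset_of_nonneg sdiff_subset
    intro x _ _
    positivity
  have hratio0 : 0 ≤ (κ : ℝ) / (Q \ S).card := by positivity
  have hratio : (κ : ℝ) / (Q \ S).card ≤ 1 / 149 := by
    rw [div_le_div_iff₀ hP0 (by norm_num), hcr]
    linarith
  have hratio2 : (κ : ℝ) / (Q \ S).card ≤ 150 / 149 * c := by
    rw [div_le_iff₀ hP0, hcr]
    have h1 : 149 / 150 * (N : ℝ) ≤ N - (κ + 1) := by linarith
    have h2 : 150 / 149 * c * (149 / 150 * (N : ℝ)) ≤ 150 / 149 * c * (N - (κ + 1)) :=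
      mul_le_mul_of_nonneg_left h1 (by positivity)
    linarith
  have hk4 : κ + 4 ≤ (Q \ S).card := by rw [hc]; omega
  obtain ⟨C, hC⟩ : ∃ C : ℝ, C = ((N - (κ + 1)).choose κ : ℝ) := ⟨_, rfl⟩
  have hC0 : 0 ≤ C := by rw [hC]; exact Nat.cast_nonneg _
  -- the cut off part
  have h1 := markov (Q \ S) (mt R y) κ hk4 hm' (θ := 11 / 20)
  rw [show ((Q \ S).card.choose κ : ℝ) = C by rw [hc, hC]] at h1
  have h1' : C * ((κ : ℝ) / (Q \ S).card * ∑ x ∈ Q \ S, mt R y x)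
      ≤ C * (150 / 149 * c * (151 / 50)) :=
    mul_le_mul_of_nonneg_left (mul_le_mul hratio2 hms hms0 (by positivity)) hC0
  -- the truncated part
  have h2 := cheb_dn (Q \ S) (zt R y) κ hk4 (L := 47 / 125) (θ := -(9 / 20)) (by norm_num) (by
    have h3 : (κ : ℝ) / (Q \ S).card * (-11) ≤ (κ : ℝ) / (Q \ S).card * ∑ x ∈ Q \ S, zt R y x :=
      mul_le_mul_of_nonneg_left hzs hratio0
    linarith)
  rw [show ((Q \ S).card.choose κ : ℝ) = C by rw [hc, hC]] at h2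
  have h2' : C * ((κ : ℝ) / (Q \ S).card * ∑ x ∈ Q \ S, zt R y x ^ 2)
      ≤ C * (1 / 149 * (47 * c)) :=
    mul_le_mul_of_nonneg_left
      (mul_le_mul hratio hs2 (sum_nonneg (fun x _ => sq_nonneg _)) (by norm_num)) hC0
  have h3 : (((powersetCard κ (Q \ S)).filter (fun W => ∑ x ∈ W, y x ≤ -1)).card : ℝ)
      ≤ (((powersetCard κ (Q \ S)).filter (fun W => 11 / 20 ≤ ∑ x ∈ W, mt R y x)).card : ℝ)
        + (((powersetCard κ (Q \ S)).filter (fun W => ∑ x ∈ W, zt R y x ≤ -(9 / 20))).card : ℝ) := by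
    have h4 : (powersetCard κ (Q \ S)).filter (fun W => ∑ x ∈ W, y x ≤ -1)
        ⊆ (powersetCard κ (Q \ S)).filter (fun W => 11 / 20 ≤ ∑ x ∈ W, mt R y x)
          ∪ (powersetCard κ (Q \ S)).filter (fun W => ∑ x ∈ W, zt R y x ≤ -(9 / 20)) := by
      intro W hW
      rw [mem_filter] at hW
      rw [mem_union, mem_filter, mem_filter]
      rcases le_or_gt (11 / 20) (∑ x ∈ W, mt R y x) with h | h
      · exact Or.inl ⟨hW.1, h⟩
      · right
        refine ⟨hW.1, ?_⟩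
        have := hsz W
        linarith [hW.2]
    have h5 := (card_le_card h4).trans (card_union_le _ _)
    exact_mod_cast h5
  have h4 : 0 ≤ c * C := by positivity
  rw [← hC]
  nlinarith

end

end Pool.Agent.KR5
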