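import Pool.Agent.KR5.Main

/-!
# From the key inequality to optimality
-/

namespace Pool.Agent.KR5

open Finset AK K3

/-- the key inequality with the constant `K` -/
def Key (K : ℕ) : Prop :=
  ∀ (n κ N : ℕ), K * (κ + 1) ≤ N → ∀ (Q : Finset (Fin n)) (y : Fin n → ℝ),
    (∀ i ∈ Q, y i ≤ 1) → Q.card = N → -1 < ∑ x ∈ Q, y x →
    (low κ y Q : ℝ) * (N.choose (κ + 1) : ℝ) ≤ K * (pos (κ + 1) y Q * (N.choose κ : ℝ))

/-- `n > N` and the hypothesis force `(K + 1) k ≤ N + 1` -/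
theorem size_of' {K k n N : ℕ} (hn : N < n) (hkN : k ≤ N)
    (hh : K * n.choose k ≤ (K + 1) * N.choose k) : (K + 1) * k ≤ N + 1 := by
  have h1 : (N + 1).choose k ≤ n.choose k := Nat.choose_le_choose _ hn
  have h2 := Nat.choose_mul_succ_eq N k
  have hC : 0 < (N + 1).choose k := Nat.choose_pos (by omega)
  have h3 : (N + 1).choose k * (K * (N + 1)) ≤ (N + 1).choose k * ((K + 1) * (N + 1 - k)) := by
    calc (N + 1).choose k * (K * (N + 1)) = (K * (N + 1).choose k) * (N + 1) := by ring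
      _ ≤ ((K + 1) * N.choose k) * (N + 1) :=
          Nat.mul_le_mul_right _ ((Nat.mul_le_mul_left _ h1).trans hh)
      _ = (K + 1) * (N.choose k * (N + 1)) := by ring
      _ = (K + 1) * ((N + 1).choose k * (N + 1 - k)) := by rw [h2]
      _ = _ := by ring
  have h4 := Nat.le_of_mul_le_mul_left h3 hC
  obtain ⟨m, hm⟩ : ∃ m, N + 1 = k + m := ⟨N + 1 - k, by omega⟩
  rw [hm, Nat.add_sub_cancel_left] at h4
  rw [hm]
  nlinarith

theorem lin_set {K κ N n : ℕ} (hK : 1 ≤ K) (hkey : Key K) (hn : N < n) (hkN : κ + 1 ≤ N)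
    (hh : K * n.choose (κ + 1) ≤ (K + 1) * N.choose (κ + 1))
    (h : Fin n → ℝ) (h0 : ∀ i, 0 ≤ h i)
    (hs : ((κ : ℝ) + 1) * ∑ x, h x < (N : ℝ) + 1) :
    cnt 1 (κ + 1) h univ ≤ N.choose (κ + 1) := by
  have hN1 := size_of' hn hkN hh
  have hN2 : K * (κ + 1) ≤ N := by
    have : (K + 1) * (κ + 1) = K * (κ + 1) + (κ + 1) := by ring
    omega
  refine main_of_key hn hkN ?_ univ (by rw [card_univ, Fintype.card_fin]) h (fun i _ => h0 i) hs
  intro Q g g0 hQ hs'
  have hk0 : (0 : ℝ) < (κ : ℝ) + 1 := by positivity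
  set y : Fin n → ℝ := fun x => 1 - ((κ : ℝ) + 1) * g x with hy
  have hys : ∀ V : Finset (Fin n), ∑ x ∈ V, y x = V.card - ((κ : ℝ) + 1) * ∑ x ∈ V, g x := by
    intro V
    simp only [hy]
    rw [sum_sub_distrib, sum_const, nsmul_eq_mul, mul_one, mul_sum]
  have h1 := hkey n κ N hN2 Q y (by
    intro x hx
    have : 0 ≤ ((κ : ℝ) + 1) * g x := mul_nonneg hk0.le (g0 x hx)
    simp only [hy]
    linarith) hQ (by
    rw [hys, hQ]
    linarith)
  have e1 : low κ y Q = cnt 1 κ g Q := by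
    unfold low cnt
    congr 1
    apply filter_congr
    intro V hV
    rw [mem_powersetCard] at hV
    rw [hys, hV.2]
    constructor
    · intro h
      nlinarith
    · intro h
      nlinarith
  have e2 : pos (κ + 1) y Q = nl (κ + 1) g Q := by
    unfold pos nl
    congr 1
    apply filter_congr
    intro V hV
    rw [mem_powersetCard] at hV
    rw [hys, hV.2]
    push_cast
    constructor
    · intro h
      by_contra hcon
      push Not at hcon
      nlinarith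
    · intro h
      nlinarith
  rw [e1, e2] at h1
  have hC1 : (0 : ℝ) < (N.choose κ : ℝ) := by exact_mod_cast Nat.choose_pos (by omega)
  have hKr : (1 : ℝ) ≤ K := by exact_mod_cast hK
  have hK0 : (0 : ℝ) < K := by linarith
  have h2 : (K : ℝ) * (n.choose (κ + 1) : ℝ) ≤ ((K : ℝ) + 1) * (N.choose (κ + 1) : ℝ) := by
    exact_mod_cast hh
  have ha0 : 0 ≤ (cnt 1 κ g Q : ℝ) / (N.choose κ : ℝ) := by positivity
  have h3 : (cnt 1 κ g Q : ℝ) / (N.choose κ : ℝ)
      * ((n.choose (κ + 1) : ℝ) - (N.choose (κ + 1) : ℝ))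
      ≤ (cnt 1 κ g Q : ℝ) / (N.choose κ : ℝ) * ((N.choose (κ + 1) : ℝ) / K) := by
    apply mul_le_mul_of_nonneg_left _ ha0
    rw [le_div_iff₀ hK0]
    linarith
  refine h3.trans ?_
  rw [div_mul_div_comm, div_le_iff₀ (by positivity)]
  linarith

/-- the `1 / k`-distribution is optimal -/
theorem optimal_lin {K : ℕ} (hK : 1 ≤ K) (hkey : Key K) (k n : ℕ) (hk : 1 ≤ k) (h : ℝ)
    (hn : K * n.choose k ≤ (K + 1) * (⌊h * (k : ℝ)⌋₊).choose k)
    (x : Fin n → ℝ) (hx : ∀ i, 0 ≤ x i) (hsum : ∑ i, x i = h) :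
    Set.ncard {V : Finset (Fin n) | V.card = k ∧ (1 : ℝ) ≤ ∑ i ∈ V, x i} ≤
      Set.ncard {V : Finset (Fin n) | V.card = k ∧ (1 : ℝ) ≤ ∑ i ∈ V,
        (if i.val < min n ⌊h * (k : ℝ)⌋₊ then (1 : ℝ) / (k : ℝ) else 0)} := by
  rw [ncard_eq_cnt', ncard_eq_cnt']
  refine le_trans ?_ (dist_k hk (min_le_left _ _))
  rcases Nat.lt_or_ge ⌊h * (k : ℝ)⌋₊ n with hlt | hge
  · rw [min_eq_right hlt.le]
    obtain ⟨κ, rfl⟩ : ∃ κ, k = κ + 1 := ⟨k - 1, by omega⟩
    rcases Nat.lt_or_ge ⌊h * ((κ + 1 : ℕ) : ℝ)⌋₊ (κ + 1) with hkN | hkN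
    · rw [Nat.choose_eq_zero_of_lt hkN, mul_zero] at hn
      have h1 : n.choose (κ + 1) = 0 := by
        rcases Nat.eq_zero_or_pos (n.choose (κ + 1)) with h2 | h2
        · exact h2
        · have : 0 < K * n.choose (κ + 1) := by positivity
          omega
      have h2 := cnt_le_choose 1 (κ + 1) x univ
      rw [card_univ, Fintype.card_fin, h1] at h2
      omega
    · apply lin_set hK hkey hlt hkN hn x hx
      rw [hsum]
      have h1 := Nat.lt_floor_add_one (h * ((κ + 1 : ℕ) : ℝ))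
      push_cast at h1 ⊢
      linarith
  · rw [min_eq_left hge]
    have := cnt_le_choose 1 k x univ
    rwa [card_univ, Fintype.card_fin] at this

theorem key150 : Key 150 := by
  intro n κ N hN Q y hy hQ hs
  have := key_lin hN Q y hy hQ hs
  push_cast
  exact this

end Pool.Agent.KR5
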