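import Pool.Agent.Helper80.AK.Sharp
import Pool.Agent.KR5.Opt

/-!
# The range in terms of `n`
-/

namespace Pool.Agent.KR5

open Finset AK

theorem choose_range {K k n N : ℕ} (hK : 1 ≤ K) (hk : 1 ≤ k)
    (h : (K + 1) * k * n ≤ ((K + 1) * k + 1) * N) :
    K * n.choose k ≤ (K + 1) * N.choose k := by
  rcases Nat.lt_or_ge N n with hlt | hge
  · obtain ⟨j, rfl⟩ : ∃ j, n = N + j := ⟨n - N, by omega⟩
    have h1 : (K + 1) * k * j ≤ N := by nlinarith
    have hj : 1 ≤ j := by omega
    have hkN : k ≤ N := by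
      refine le_trans ?_ h1
      calc k = 1 * k * 1 := by ring
        _ ≤ (K + 1) * k * j := Nat.mul_le_mul (Nat.mul_le_mul_right k (by omega)) hj
    have hN0 : 0 < N := by omega
    have hN0r : (0 : ℝ) < N := by exact_mod_cast hN0
    have hKr : (1 : ℝ) ≤ K := by exact_mod_cast hK
    have h2 : ((K : ℝ) + 1) * k * j ≤ N := by exact_mod_cast h1
    have hj0 : (0 : ℝ) ≤ j := Nat.cast_nonneg j
    have hk0 : (0 : ℝ) ≤ k := Nat.cast_nonneg k
    have hjk0 : 0 ≤ (j : ℝ) * k := by positivity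
    have h3 : (j : ℝ) * k ≤ N := by nlinarith
    have h4 := choose_lower N k hN0 hkN j h3
    have h5 : (K : ℝ) / (K + 1) ≤ 1 - (j : ℝ) * k / N := by
      have h51 : (j : ℝ) * k / N ≤ 1 / (K + 1) := by
        rw [div_le_div_iff₀ hN0r (by positivity)]
        linarith
      have h52 : (K : ℝ) / (K + 1) = 1 - 1 / (K + 1) := by field_simp; ring
      linarith
    have h6 : (0 : ℝ) ≤ ((N + j).choose k : ℝ) := Nat.cast_nonneg _
    have h7 : ((N + j).choose k : ℝ) * (K / (K + 1)) ≤ (N.choose k : ℝ) :=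
      (mul_le_mul_of_nonneg_left h5 h6).trans h4
    rw [mul_div_assoc', div_le_iff₀ (by positivity)] at h7
    have h8 : (K : ℝ) * ((N + j).choose k : ℝ) ≤ (K + 1) * (N.choose k : ℝ) := by linarith
    exact_mod_cast h8
  · have h1 : n.choose k ≤ N.choose k := Nat.choose_le_choose _ hge
    exact Nat.mul_le_mul (by omega) h1

end Pool.Agent.KR5
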