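import Pool.Agent.KR5.Max

/-!
# Few positive sets: the structure of the values
-/

namespace Pool.Agent.KR5

open Finset AK

section
variable {ι : Type*} [DecidableEq ι]

theorem pos_mono (k : ℕ) (y : ι → ℝ) {P Q : Finset ι} (h : P ⊆ Q) : pos k y P ≤ pos k y Q := by
  unfold pos
  apply card_le_card
  intro V hV
  rw [mem_filter, mem_powersetCard] at hV ⊢
  exact ⟨⟨hV.1.1.trans h, hV.1.2⟩, hV.2⟩

theorem choose_rel (N κ : ℕ) (hN : 1 ≤ N) :
    ((N - 1).choose κ : ℝ) * N = (N.choose (κ + 1) : ℝ) * ((κ : ℝ) + 1) := by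
  have h2 := Nat.add_one_mul_choose_eq (N - 1) κ
  rw [show N - 1 + 1 = N by omega] at h2
  have h3 : ((N * (N - 1).choose κ : ℕ) : ℝ) = ((N.choose (κ + 1) * (κ + 1) : ℕ) : ℝ) := by
    rw [h2]
  push_cast at h3
  rw [mul_comm]
  exact h3

/-- all values on `P` nonnegative -/
theorem pos_of_nonneg {κ N r : ℕ} (hkN : κ + 1 ≤ N) (hr : 4 * ((κ + 1) * r) ≤ 3 * N)
    (Q P : Finset ι) (y : ι → ℝ) (hPQ : P ⊆ Q) (hN : Q.card = N) (hP : P.card + r = N)
    {ω : ι} (hω : ω ∈ Q) (h0 : 0 < y ω) (hy : ∀ x ∈ P, 0 ≤ y x) :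
    1 / 4 * ((N - 1).choose κ : ℝ) ≤ pos (κ + 1) y Q := by
  rcases Nat.eq_zero_or_pos κ with rfl | hκ
  · have h1 := insert_count Q y 0 hω ∅ (empty_subset _)
    rw [powersetCard_zero, filter_true_of_mem] at h1
    · rw [card_singleton] at h1
      have h2 : (1 : ℝ) ≤ pos (0 + 1) y Q := by exact_mod_cast h1
      simp only [Nat.choose_zero_right]
      push_cast
      linarith
    · intro V hV
      rw [mem_singleton] at hV
      rw [hV, sum_empty]
      linarith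
  have h1 := insert_count Q y κ hω (P.erase ω) (erase_subset_erase _ hPQ)
  rw [filter_true_of_mem] at h1
  · rw [card_powersetCard] at h1
    have h2 : N - 1 - r ≤ (P.erase ω).card := by
      have := pred_card_le_card_erase (s := P) (a := ω)
      omega
    have h3 : (N - 1 - r).choose κ ≤ pos (κ + 1) y Q := (Nat.choose_le_choose _ h2).trans h1
    have h4 : ((N - 1 - r).choose κ : ℝ) ≤ pos (κ + 1) y Q := by exact_mod_cast h3
    refine le_trans ?_ h4
    have hr2 : 2 * r ≤ (κ + 1) * r := Nat.mul_le_mul_right _ (by omega)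
    have hr' : r ≤ N - 1 := by omega
    have h5 := choose_avoid (N - 1) κ (by omega) r hr'
    have h6 : (κ : ℝ) * r / ((N - 1 : ℕ) : ℝ) ≤ 3 / 4 := by
      have h7 : (0 : ℝ) < ((N - 1 : ℕ) : ℝ) := by
        have : 0 < N - 1 := by omega
        exact_mod_cast this
      rw [div_le_div_iff₀ h7 (by norm_num), Nat.cast_sub (by omega)]
      have h8 : 4 * (((κ : ℝ) + 1) * r) ≤ 3 * N := by exact_mod_cast hr
      have h9 : ((κ : ℝ) + 1) ≤ N := by exact_mod_cast hkN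
      have hκr : (1 : ℝ) ≤ κ := by exact_mod_cast hκ
      have hr0 : (0 : ℝ) ≤ r := Nat.cast_nonneg r
      push_cast
      rcases Nat.eq_zero_or_pos r with hz | hp
      · rw [hz]
        push_cast
        linarith
      · have : (1 : ℝ) ≤ r := by exact_mod_cast hp
        linarith
    have h7 : ((N - 1).choose κ : ℝ) * (1 / 4)
        ≤ ((N - 1).choose κ : ℝ) * (1 - (κ : ℝ) * r / ((N - 1 : ℕ) : ℝ)) :=
      mul_le_mul_of_nonneg_left (by linarith) (Nat.cast_nonneg _)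
    linarith
  · intro V hV
    rw [mem_powersetCard] at hV
    have : 0 ≤ ∑ x ∈ V, y x := sum_nonneg (fun x hx => hy x (mem_of_mem_erase (hV.1 hx)))
    linarith

/-- large variance gives many positive sets -/
theorem pos_of_var (P : Finset ι) (y : ι → ℝ) (k : ℕ) (hk : 1 ≤ k) (hM : 32 * k ≤ P.card)
    {B lo m μ : ℝ} (hμ : μ = (∑ x ∈ P, y x) / P.card) (h1 : ∀ x ∈ P, lo ≤ y x)
    (h2 : ∀ x ∈ P, y x ≤ lo + B) (hm0 : 0 ≤ m) (hm : -(k * μ) ≤ m)
    (hV0 : 0 < vr (fun x => y x - μ) k P) (hB : B ^ 2 ≤ vr (fun x => y x - μ) k P)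
    (hmV : 36 * m ^ 2 ≤ 8 / 3 * vr (fun x => y x - μ) k P) :
    7 / 240 * (P.card.choose k : ℝ) ≤ pos k y P := by
  have hP : 0 < P.card := by omega
  have hc := centre_sum P y hP
  have hs := centre_sq P y hP h1 h2
  rw [← hμ] at hc hs
  have hmean := sv_mean (fun x => y x - μ) k P (by omega) hc
  have hf := fr_le (fun x => y x - μ) k P hk hM B hs
  have h3 := mean_shift hmean hm0 hV0 (by
    have : B ^ 2 * vr (fun x => y x - μ) k P
        ≤ vr (fun x => y x - μ) k P * vr (fun x => y x - μ) k P :=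
      mul_le_mul_of_nonneg_right hB hV0.le
    nlinarith) hmV
  have h4 := sv_eq (fun x => y x - μ) k P (fun s => if m < s then 1 else 0) (by omega)
  have h5 : ∑ V ∈ powersetCard k P, (if m < ∑ x ∈ V, (y x - μ) then (1 : ℝ) else 0)
      ≤ pos k y P := by
    unfold pos
    rw [card_filter]
    push_cast
    apply sum_le_sum
    intro V hV
    rw [mem_powersetCard] at hV
    rw [sum_sub_distrib, sum_const, nsmul_eq_mul, hV.2]
    split_ifs with ha hb
    · exact le_rfl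
    · exfalso
      apply hb
      linarith
    · norm_num
    · exact le_rfl
  refine le_trans ?_ h5
  rw [← h4]
  exact mul_le_mul_of_nonneg_right h3 (Nat.cast_nonneg _)

/-- the squares -/
theorem sq_bound (P : Finset ι) (y : ι → ℝ) (k : ℕ) (hk : 1 ≤ k) (hM : 90 * k ≤ P.card)
    {μ : ℝ} (hμ : μ = (∑ x ∈ P, y x) / P.card) :
    88 / 89 * (k * ∑ x ∈ P, y x ^ 2) ≤ P.card * vr (fun x => y x - μ) k P
      + k * ((∑ x ∈ P, y x) ^ 2 / P.card) := by
  have hP : 0 < P.card := by omega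
  obtain ⟨M, hMd⟩ : ∃ M : ℝ, M = P.card := ⟨_, rfl⟩
  have hkr : (1 : ℝ) ≤ k := by exact_mod_cast hk
  have hMr : 90 * (k : ℝ) ≤ M := by rw [hMd]; exact_mod_cast hM
  have hM0 : 0 < M := by linarith
  have e1 : ∑ x ∈ P, (y x - μ) ^ 2 = ∑ x ∈ P, y x ^ 2 - (∑ x ∈ P, y x) ^ 2 / M := by
    have : ∀ x ∈ P, (y x - μ) ^ 2 = y x ^ 2 - 2 * μ * y x + μ ^ 2 := fun x _ => by ring
    rw [sum_congr rfl this, sum_add_distrib, sum_sub_distrib, ← mul_sum, sum_const,
      nsmul_eq_mul, ← hMd, hμ, ← hMd]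
    field_simp
    ring
  have hz0 : 0 ≤ ∑ x ∈ P, (y x - μ) ^ 2 := sum_nonneg (fun x _ => sq_nonneg _)
  unfold vr
  rw [← hMd, coef_V _ _ (by linarith)]
  have h2 : 88 / 89 * (k * ∑ x ∈ P, (y x - μ) ^ 2)
      ≤ M * ((k : ℝ) * (M - k) / (M * (M - 1)) * ∑ x ∈ P, (y x - μ) ^ 2) := by
    have e2 : M * ((k : ℝ) * (M - k) / (M * (M - 1)) * ∑ x ∈ P, (y x - μ) ^ 2)
        = ((M - k) / (M - 1)) * (k * ∑ x ∈ P, (y x - μ) ^ 2) := by
      have : M - 1 ≠ 0 := by linarith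
      field_simp
    rw [e2]
    apply mul_le_mul_of_nonneg_right _ (by positivity)
    rw [div_le_div_iff₀ (by norm_num) (by linarith)]
    linarith
  have h3 : 0 ≤ (k : ℝ) * ((∑ x ∈ P, y x) ^ 2 / M) := by positivity
  rw [e1] at h2 ⊢
  have h4 : 88 / 89 * (k * (∑ x ∈ P, y x ^ 2 - (∑ x ∈ P, y x) ^ 2 / M))
      = 88 / 89 * (k * ∑ x ∈ P, y x ^ 2) - 88 / 89 * (k * ((∑ x ∈ P, y x) ^ 2 / M)) := by ring
  rw [h4] at h2
  linarith

end

end Pool.Agent.KR5
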