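import Pool.Agent.KR5.Trim

/-!
# Few positive sets: the structure of the values, conclusion
-/

namespace Pool.Agent.KR5

open Finset AK

section
variable {ι : Type*} [DecidableEq ι]

theorem trim {κ N : ℕ} (hκ : 1 ≤ κ) (hN1 : 150 * (κ + 1) ≤ N) (Q : Finset ι) (y : ι → ℝ)
    (hN : Q.card = N) (hs : -1 ≤ ∑ x ∈ Q, y x)
    (hy : ∀ x ∈ Q, y x < 12 / 5 * (((κ : ℝ) + 1) / N)) {ω : ι} (hω : ω ∈ Q) (h0 : 0 < y ω)
    (hb : (pos (κ + 1) y Q : ℝ) < 7 / 100 * ((N - 1).choose κ : ℝ)) :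
    ∃ P ⊆ Q, (∀ x ∈ Q \ P, y x ≤ 0) ∧ -∑ x ∈ Q \ P, y x ≤ 151 / 50 ∧
      ∑ x ∈ P, y x ≤ 101 / 50 ∧ ∑ x ∈ P, y x ^ 2 ≤ 47 * (((κ : ℝ) + 1) / N) := by
  obtain ⟨k, hk⟩ : ∃ k : ℝ, k = (κ : ℝ) + 1 := ⟨_, rfl⟩
  have hκr : (1 : ℝ) ≤ κ := by exact_mod_cast hκ
  have hk2 : 2 ≤ k := by rw [hk]; linarith
  have hk0 : 0 < k := by linarith
  have hNr : 150 * k ≤ N := by rw [hk]; exact_mod_cast hN1
  have hN0 : (0 : ℝ) < N := by linarith
  have hN0' : 0 < N := by exact_mod_cast hN0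
  rw [← hk] at hy ⊢
  obtain ⟨c, hc⟩ : ∃ c : ℝ, c = k / N := ⟨_, rfl⟩
  rw [← hc] at hy ⊢
  have hc0 : 0 < c := by rw [hc]; positivity
  have hcN : c * N = k := by rw [hc]; field_simp
  obtain ⟨r, hr⟩ : ∃ r, r = 3 * N / (4 * (κ + 1)) := ⟨_, rfl⟩
  have hr1 : 4 * (κ + 1) * r ≤ 3 * N := by rw [hr]; exact Nat.mul_div_le _ _
  have hr2 : 3 * N < 4 * (κ + 1) * (r + 1) := by rw [hr]; exact Nat.lt_mul_div_succ _ (by omega)
  have hr1' : 4 * ((κ + 1) * r) ≤ 3 * N := by rw [← mul_assoc]; exact hr1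
  have h8r : 2 * r ≤ (κ + 1) * r := Nat.mul_le_mul_right _ (by omega)
  have hrN : 8 * r ≤ 3 * N := by omega
  obtain ⟨P, hPQ, hPc, hP⟩ := top_part Q y r (by omega)
  rw [hN] at hPc
  have hr1r : 4 * k * r ≤ 3 * N := by rw [hk]; exact_mod_cast hr1
  have hr2r : 3 * (N : ℝ) ≤ 4 * k * (r + 1) := by rw [hk]; exact_mod_cast hr2.le
  have hr0 : (0 : ℝ) ≤ r := Nat.cast_nonneg r
  have hPr : (P.card : ℝ) = N - r := by
    have : (P.card : ℝ) + r = N := by exact_mod_cast hPc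
    linarith
  have hPn : P.card = N - r := by omega
  have hrN8 : 8 * (r : ℝ) ≤ 3 * N := by exact_mod_cast hrN
  have hP58 : 5 / 8 * (N : ℝ) ≤ P.card := by rw [hPr]; linarith
  have hPN : (P.card : ℝ) ≤ N := by rw [hPr]; linarith
  have hPpos : (0 : ℝ) < P.card := by linarith
  have hPpos' : 0 < P.card := by exact_mod_cast hPpos
  have hP90 : 90 * (κ + 1) ≤ P.card := by
    have : 90 * k ≤ (P.card : ℝ) := by linarith
    rw [hk] at this
    exact_mod_cast this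
  have hPne : P.Nonempty := card_pos.1 hPpos'
  -- binomial coefficients
  have hC0 : (0 : ℝ) < ((N - 1).choose κ : ℝ) := by
    exact_mod_cast Nat.choose_pos (by omega)
  have hCC : 150 * ((N - 1).choose κ : ℝ) ≤ (N.choose (κ + 1) : ℝ) := by
    have h1 := choose_rel N κ (by omega)
    rw [← hk] at h1
    have h2 : 150 * ((N - 1).choose κ : ℝ) * k ≤ (N.choose (κ + 1) : ℝ) * k := by
      rw [← h1]
      calc 150 * ((N - 1).choose κ : ℝ) * k = ((N - 1).choose κ : ℝ) * (150 * k) := by ring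
        _ ≤ ((N - 1).choose κ : ℝ) * N := mul_le_mul_of_nonneg_left hNr hC0.le
    exact le_of_mul_le_mul_right h2 hk0
  have hav : 1 / 4 * (N.choose (κ + 1) : ℝ) ≤ (P.card.choose (κ + 1) : ℝ) := by
    have h1 := choose_avoid N (κ + 1) hN0' r (by omega)
    rw [← hPn] at h1
    have h2 : ((κ + 1 : ℕ) : ℝ) * r / N ≤ 3 / 4 := by
      rw [div_le_div_iff₀ hN0 (by norm_num)]
      push_cast
      rw [← hk]
      linarith
    have h3 : (N.choose (κ + 1) : ℝ) * (1 / 4)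
        ≤ (N.choose (κ + 1) : ℝ) * (1 - ((κ + 1 : ℕ) : ℝ) * r / N) :=
      mul_le_mul_of_nonneg_left (by linarith) (Nat.cast_nonneg _)
    linarith
  have hmono : (pos (κ + 1) y P : ℝ) ≤ pos (κ + 1) y Q := by
    exact_mod_cast pos_mono (κ + 1) y hPQ
  -- the threshold
  obtain ⟨x0, hx0, hmin⟩ := exists_min_image P y hPne
  obtain ⟨β, hβ⟩ : ∃ β, β = -y x0 := ⟨_, rfl⟩
  have hβP : ∀ x ∈ P, -β ≤ y x := by
    intro x hx
    rw [hβ, neg_neg]
    exact hmin x hx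
  have hβQ : ∀ z ∈ Q \ P, y z ≤ -β := by
    intro z hz
    rw [hβ, neg_neg]
    exact hP x0 hx0 z hz
  rcases le_or_gt β 0 with hβ0 | hβ0
  · exfalso
    have h1 := pos_of_nonneg (κ := κ) (N := N) (r := r) (by omega) hr1' Q P y hPQ hN hPc hω h0
      (fun x hx => by linarith [hβP x hx])
    linarith
  obtain ⟨D, hD⟩ : ∃ D, D = -∑ x ∈ Q \ P, y x := ⟨_, rfl⟩
  obtain ⟨S, hS⟩ : ∃ S, S = ∑ x ∈ P, y x := ⟨_, rfl⟩
  have hrβ : r * β ≤ D := by
    rw [hD, le_neg]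
    calc ∑ x ∈ Q \ P, y x ≤ ∑ x ∈ Q \ P, (-β) := sum_le_sum hβQ
      _ = -(r * β) := by
        rw [sum_const, card_sdiff_of_subset hPQ, nsmul_eq_mul, hN, ← hPc,
          Nat.add_sub_cancel_left]
        ring
  have hD0 : 0 ≤ D := le_trans (mul_nonneg hr0 hβ0.le) hrβ
  have hSD : D - 1 ≤ S := by
    have h2 := sum_sdiff (f := y) hPQ
    rw [hS]
    linarith
  obtain ⟨w, hw⟩ : ∃ w, w = β * N / k := ⟨_, rfl⟩
  have hwβ : β = w * c := by
    rw [hw, hc]
    field_simp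
  have hw0 : 0 < w := by rw [hw]; positivity
  -- (5/16) u N / k = 3/4
  have hup : S ≤ 3 / 4 + 5 / 16 * w := by
    by_contra hcon
    push Not at hcon
    have hcon' : 5 / 16 * (12 / 5 * c + β) * P.card ≤ k * S := by
      have h1 : k * (3 / 4 + 5 / 16 * w) ≤ k * S := mul_le_mul_of_nonneg_left hcon.le hk0.le
      have h2 : k * (3 / 4 + 5 / 16 * w) = 5 / 16 * (12 / 5 * c + β) * N := by
        rw [hwβ, ← hcN]
        ring
      have h3 : 5 / 16 * (12 / 5 * c + β) * P.card ≤ 5 / 16 * (12 / 5 * c + β) * N :=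
        mul_le_mul_of_nonneg_left hPN (by positivity)
      linarith
    have h1 := low_set P y (κ + 1) (by omega) hPpos' (lo := -β) (B := 12 / 5 * c + β) (θ := 0)
      (t := 5 / 16 * (12 / 5 * c + β)) (by positivity) hβP
      (fun x hx => by linarith [hy x (hPQ hx)]) (by
        rw [← hS, sub_zero, mul_div_assoc', le_div_iff₀ hPpos]
        push_cast
        rw [← hk]
        exact hcon') (by positivity) le_rfl
    have h2 : 21 / 200 * (P.card.choose (κ + 1) : ℝ) ≤ pos (κ + 1) y P := h1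
    linarith
  have hwD : 223 / 300 * w ≤ D := by
    have h1 : 223 / 300 * (N : ℝ) ≤ k * r := by linarith
    have h2 : 223 / 300 * w = β * (223 / 300 * N) / k := by rw [hw]; ring
    rw [h2, div_le_iff₀ hk0]
    calc β * (223 / 300 * N) ≤ β * (k * r) := mul_le_mul_of_nonneg_left h1 hβ0.le
      _ = (r * β) * k := by ring
      _ ≤ D * k := mul_le_mul_of_nonneg_right hrβ hk0.le
  have hD3 : D ≤ 151 / 50 := by linarith
  have hS2 : S ≤ 101 / 50 := by linarith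
  have hw4 : w ≤ 407 / 100 := by linarith
  have hS1 : -1 ≤ S := by linarith
  have hSsq : S ^ 2 ≤ (101 / 50) ^ 2 := by
    apply sq_le_sq'
    · linarith
    · exact hS2
  -- variance
  obtain ⟨μ, hμ⟩ : ∃ μ, μ = (∑ x ∈ P, y x) / P.card := ⟨_, rfl⟩
  have hvar : vr (fun x => y x - μ) (κ + 1) P < 42 * c ^ 2 := by
    by_contra hcon
    push Not at hcon
    have hB : (12 / 5 * c + β) ^ 2 ≤ 42 * c ^ 2 := by
      rw [hwβ]
      have e : 12 / 5 * c + w * c = (12 / 5 + w) * c := by ring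
      rw [e, mul_pow]
      apply mul_le_mul_of_nonneg_right _ (sq_nonneg _)
      nlinarith
    have hμ' : -((((κ + 1 : ℕ) : ℝ)) * μ) ≤ 8 / 5 * c := by
      rw [hμ, ← hS]
      push_cast
      rw [← hk, mul_div_assoc', neg_le, le_div_iff₀ hPpos]
      have h1 : 8 / 5 * c * (5 / 8 * N) ≤ 8 / 5 * c * P.card :=
        mul_le_mul_of_nonneg_left hP58 (by positivity)
      have h2 : 8 / 5 * c * (5 / 8 * N) = k := by rw [← hcN]; ring
      have h3 : k * (-1) ≤ k * S := mul_le_mul_of_nonneg_left hS1 hk0.le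
      linarith
    have h1 := pos_of_var P y (κ + 1) (by omega) (by omega) (B := 12 / 5 * c + β) (lo := -β)
      (m := 8 / 5 * c) hμ hβP (fun x hx => by linarith [hy x (hPQ hx)]) (by positivity) hμ'
      (lt_of_lt_of_le (by positivity) hcon) (hB.trans hcon) (by nlinarith)
    linarith
  refine ⟨P, hPQ, fun x hx => by linarith [hβQ x hx], by rw [← hD]; exact hD3,
    by rw [← hS]; exact hS2, ?_⟩
  have hsq := sq_bound P y (κ + 1) (by omega) hP90 hμ
  rw [← hS] at hsq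
  push_cast at hsq
  rw [← hk] at hsq
  have h1 : P.card * vr (fun x => y x - μ) (κ + 1) P ≤ N * (42 * c ^ 2) := by
    calc P.card * vr (fun x => y x - μ) (κ + 1) P ≤ P.card * (42 * c ^ 2) :=
          mul_le_mul_of_nonneg_left hvar.le hPpos.le
      _ ≤ N * (42 * c ^ 2) := mul_le_mul_of_nonneg_right hPN (by positivity)
  have h2 : S ^ 2 / P.card ≤ 33 / 5 / N := by
    rw [div_le_div_iff₀ hPpos hN0]
    have h3 : S ^ 2 * N ≤ (101 / 50) ^ 2 * N := mul_le_mul_of_nonneg_right hSsq hN0.le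
    linarith
  have h3 : N * (42 * c ^ 2) = k * (42 * c) := by
    rw [← hcN]
    ring
  have h4 : 33 / 5 / (N : ℝ) ≤ 33 / 10 * c := by
    rw [div_le_iff₀ hN0]
    have : 33 / 10 * c * N = 33 / 10 * k := by rw [mul_assoc, hcN]
    rw [this]
    linarith
  have h5 : k * (S ^ 2 / P.card) ≤ k * (33 / 10 * c) :=
    mul_le_mul_of_nonneg_left (h2.trans h4) hk0.le
  have h6 : k * (88 / 89 * ∑ x ∈ P, y x ^ 2) ≤ k * (42 * c + 33 / 10 * c) := by
    have e1 : k * (88 / 89 * ∑ x ∈ P, y x ^ 2) = 88 / 89 * (k * ∑ x ∈ P, y x ^ 2) := by ring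
    have e2 : k * (42 * c + 33 / 10 * c) = k * (42 * c) + k * (33 / 10 * c) := by ring
    rw [e1, e2]
    linarith
  have h7 : 88 / 89 * ∑ x ∈ P, y x ^ 2 ≤ 42 * c + 33 / 10 * c := le_of_mul_le_mul_left h6 hk0
  linarith

end

end Pool.Agent.KR5
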